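import Mathlib

/-!
Almost surely constant upper and lower limits from zero-one laws.
-/

set_option autoImplicit false

namespace Pool.Agent.U154.LIL

open MeasureTheory Filter Topology

/-- An upper limit is almost surely constant. -/
theorem limsup_const {Ω : Type*} [MeasurableSpace Ω] {μ : Measure Ω} [IsProbabilityMeasure μ]
    (X : ℕ → Ω → ℝ) {c C : ℝ} (hc : 0 < c) (hX : ∀ ω, ∀ᶠ n : ℕ in atTop, 0 ≤ X n ω)
    (hzo : ∀ t : ℝ, 0 < t → (∀ᵐ ω ∂μ, ∃ᶠ n : ℕ in atTop, t ≤ X n ω) ∨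
      ∀ᵐ ω ∂μ, ∀ᶠ n : ℕ in atTop, X n ω < t)
    (hlow : ∀ᵐ ω ∂μ, ∃ᶠ n : ℕ in atTop, c ≤ X n ω)
    (hup : ∀ᵐ ω ∂μ, ∀ᶠ n : ℕ in atTop, X n ω ≤ C) :
    ∃ L : ℝ, c ≤ L ∧ L ≤ C ∧ ∀ᵐ ω ∂μ, limsup (fun n : ℕ => X n ω) atTop = L := by
  obtain ⟨T, hT⟩ : ∃ T : Set ℝ, T = {t | ∀ᵐ ω ∂μ, ∃ᶠ n : ℕ in atTop, t ≤ X n ω} := ⟨_, rfl⟩
  have hcT : c ∈ T := by rw [hT]; exact hlow
  have h2 : ∀ t ∈ T, t ≤ C := by
    intro t ht
    rw [hT] at ht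
    have ht' : ∀ᵐ ω ∂μ, ∃ᶠ n : ℕ in atTop, t ≤ X n ω := ht
    obtain ⟨ω, h4, h5⟩ := (ht'.and hup).exists
    obtain ⟨n, h6, h7⟩ := (h4.and_eventually h5).exists
    exact h6.trans h7
  have hne : T.Nonempty := ⟨c, hcT⟩
  have hbd : BddAbove T := ⟨C, h2⟩
  have hcL : c ≤ sSup T := le_csSup hbd hcT
  have hLC : sSup T ≤ C := csSup_le hne h2
  refine ⟨sSup T, hcL, hLC, ?_⟩
  have hT1 : ∀ q : ℚ, (q : ℝ) < sSup T → ∀ᵐ ω ∂μ, ∃ᶠ n : ℕ in atTop, (q : ℝ) ≤ X n ω := by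
    intro q hq
    obtain ⟨t, ht, hqt⟩ := exists_lt_of_lt_csSup hne hq
    rw [hT] at ht
    have ht' : ∀ᵐ ω ∂μ, ∃ᶠ n : ℕ in atTop, t ≤ X n ω := ht
    filter_upwards [ht'] with ω hω
    exact hω.mono fun n hn => hqt.le.trans hn
  have hT2 : ∀ q : ℚ, sSup T < (q : ℝ) → ∀ᵐ ω ∂μ, ∀ᶠ n : ℕ in atTop, X n ω < q := by
    intro q hq
    rcases hzo (q : ℝ) (hc.trans (hcL.trans_lt hq)) with h | h
    · exfalso
      have : (q : ℝ) ∈ T := by rw [hT]; exact h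
      exact absurd (le_csSup hbd this) (not_le.2 hq)
    · exact h
  have hall : ∀ᵐ ω ∂μ, ∀ q : ℚ, ((q : ℝ) < sSup T → ∃ᶠ n : ℕ in atTop, (q : ℝ) ≤ X n ω) ∧
      (sSup T < (q : ℝ) → ∀ᶠ n : ℕ in atTop, X n ω < q) := by
    rw [ae_all_iff]
    intro q
    rcases lt_trichotomy (q : ℝ) (sSup T) with h | h | h
    · filter_upwards [hT1 q h] with ω hω
      exact ⟨fun _ => hω, fun h' => absurd h' (lt_asymm h)⟩
    · filter_upwards with ω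
      exact ⟨fun h' => absurd h' (by rw [h]; exact lt_irrefl _),
        fun h' => absurd h' (by rw [h]; exact lt_irrefl _)⟩
    · filter_upwards [hT2 q h] with ω hω
      exact ⟨fun h' => absurd h' (lt_asymm h), fun _ => hω⟩
  filter_upwards [hall] with ω hω
  have hcob : IsCoboundedUnder (· ≤ ·) atTop (fun n : ℕ => X n ω) :=
    IsBoundedUnder.isCoboundedUnder_le ⟨0, by
      rw [eventually_map]
      exact hX ω⟩
  refine le_antisymm ?_ ?_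
  · refine le_of_forall_gt fun x hx => ?_
    obtain ⟨q, hq1, hq2⟩ := exists_rat_btwn hx
    exact (limsup_le_of_le hcob (((hω q).2 hq1).mono fun n hn => hn.le)).trans_lt hq2
  · refine le_of_forall_lt fun x hx => ?_
    obtain ⟨q, hq1, hq2⟩ := exists_rat_btwn hx
    refine hq1.trans_le ?_
    obtain ⟨q', hq'⟩ := exists_rat_gt (sSup T)
    exact le_limsup_of_frequently_le ((hω q).1 hq2) ⟨q', by
      rw [eventually_map]
      exact ((hω q').2 hq').mono fun n hn => hn.le⟩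

/-- A lower limit is almost surely constant. -/
theorem liminf_const {Ω : Type*} [MeasurableSpace Ω] {μ : Measure Ω} [IsProbabilityMeasure μ]
    (X : ℕ → Ω → ℝ) {c C : ℝ} (hc : 0 < c)
    (hzo : ∀ t : ℝ, 0 < t → (∀ᵐ ω ∂μ, ∀ᶠ n : ℕ in atTop, t ≤ X n ω) ∨
      ∀ᵐ ω ∂μ, ∃ᶠ n : ℕ in atTop, X n ω < t)
    (hlow : ∀ᵐ ω ∂μ, ∀ᶠ n : ℕ in atTop, c ≤ X n ω)
    (hup : ∀ᵐ ω ∂μ, ∃ᶠ n : ℕ in atTop, X n ω ≤ C) :
    ∃ L : ℝ, c ≤ L ∧ L ≤ C ∧ ∀ᵐ ω ∂μ, liminf (fun n : ℕ => X n ω) atTop = L := by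
  obtain ⟨T, hT⟩ : ∃ T : Set ℝ, T = {t | ∀ᵐ ω ∂μ, ∀ᶠ n : ℕ in atTop, t ≤ X n ω} := ⟨_, rfl⟩
  have hcT : c ∈ T := by rw [hT]; exact hlow
  have h2 : ∀ t ∈ T, t ≤ C := by
    intro t ht
    rw [hT] at ht
    have ht' : ∀ᵐ ω ∂μ, ∀ᶠ n : ℕ in atTop, t ≤ X n ω := ht
    obtain ⟨ω, h4, h5⟩ := (ht'.and hup).exists
    obtain ⟨n, h6, h7⟩ := (h5.and_eventually h4).exists
    exact h7.trans h6
  have hne : T.Nonempty := ⟨c, hcT⟩
  have hbd : BddAbove T := ⟨C, h2⟩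
  have hcL : c ≤ sSup T := le_csSup hbd hcT
  have hLC : sSup T ≤ C := csSup_le hne h2
  refine ⟨sSup T, hcL, hLC, ?_⟩
  have hT1 : ∀ q : ℚ, (q : ℝ) < sSup T → ∀ᵐ ω ∂μ, ∀ᶠ n : ℕ in atTop, (q : ℝ) ≤ X n ω := by
    intro q hq
    obtain ⟨t, ht, hqt⟩ := exists_lt_of_lt_csSup hne hq
    rw [hT] at ht
    have ht' : ∀ᵐ ω ∂μ, ∀ᶠ n : ℕ in atTop, t ≤ X n ω := ht
    filter_upwards [ht'] with ω hω
    exact hω.mono fun n hn => hqt.le.trans hn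
  have hT2 : ∀ q : ℚ, sSup T < (q : ℝ) → ∀ᵐ ω ∂μ, ∃ᶠ n : ℕ in atTop, X n ω < q := by
    intro q hq
    rcases hzo (q : ℝ) (hc.trans (hcL.trans_lt hq)) with h | h
    · exfalso
      have : (q : ℝ) ∈ T := by rw [hT]; exact h
      exact absurd (le_csSup hbd this) (not_le.2 hq)
    · exact h
  have hall : ∀ᵐ ω ∂μ, ∀ q : ℚ, ((q : ℝ) < sSup T → ∀ᶠ n : ℕ in atTop, (q : ℝ) ≤ X n ω) ∧
      (sSup T < (q : ℝ) → ∃ᶠ n : ℕ in atTop, X n ω < q) := by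
    rw [ae_all_iff]
    intro q
    rcases lt_trichotomy (q : ℝ) (sSup T) with h | h | h
    · filter_upwards [hT1 q h] with ω hω
      exact ⟨fun _ => hω, fun h' => absurd h' (lt_asymm h)⟩
    · filter_upwards with ω
      exact ⟨fun h' => absurd h' (by rw [h]; exact lt_irrefl _),
        fun h' => absurd h' (by rw [h]; exact lt_irrefl _)⟩
    · filter_upwards [hT2 q h] with ω hω
      exact ⟨fun h' => absurd h' (lt_asymm h), fun _ => hω⟩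
  filter_upwards [hall, hlow, hup] with ω hω hl hu
  have hcob : IsCoboundedUnder (· ≥ ·) atTop (fun n : ℕ => X n ω) :=
    IsCoboundedUnder.of_frequently_le hu
  have hbdd : IsBoundedUnder (· ≥ ·) atTop (fun n : ℕ => X n ω) := ⟨c, by
      rw [eventually_map]
      exact hl⟩
  refine le_antisymm ?_ ?_
  · refine le_of_forall_gt fun x hx => ?_
    obtain ⟨q, hq1, hq2⟩ := exists_rat_btwn hx
    exact (liminf_le_of_frequently_le (((hω q).2 hq1).mono fun n hn => hn.le) hbdd).trans_lt hq2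
  · refine le_of_forall_lt fun x hx => ?_
    obtain ⟨q, hq1, hq2⟩ := exists_rat_btwn hx
    exact hq1.trans_le (le_liminf_of_le hcob ((hω q).1 hq2))

end Pool.Agent.U154.LIL
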