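import Pool.Agent.N956.PL.Inf
import Pool.Agent.Y244.PC.Tails
import Pool.Agent.H389R2.CD.Hit

/-!
Closing the edges of a small box does not change the large clusters of a large box.
-/

set_option autoImplicit false

namespace Pool.Agent.U154.LIL

open MeasureTheory Filter Topology
open Finset H974 Pool.Agent.H160R2.CV Pool.Agent.Y244.PC Pool.Agent.N956.PL

/-- An open path from the box of radius `k` to distance `R`. -/
def Crx (k R : ℕ) (F : Set Edg) : Prop :=
  ∃ x y : Vtx, inR (0 - (k:ℤ)) (0 + k) (0 - k) (0 + k) x ∧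
    (y.1 ≤ 0 - R ∨ 0 + R ≤ y.1 ∨ y.2 ≤ 0 - R ∨ 0 + R ≤ y.2) ∧ Reach F x y

theorem bx_mono' {a b : ℕ} (h : a ≤ b) : bx a ⊆ bx b := by
  intro u hu
  have : (a:ℤ) ≤ b := by exact_mod_cast h
  rw [w_mem_bx] at hu ⊢
  omega

/-- the cluster sizes of a box are bounded by the number of its vertices -/
theorem big_card {N : ℝ} {n : ℕ} {F : Finset Edg} (h : Big N n F) : N ≤ (2 * (n:ℝ) + 1) ^ 2 := by
  obtain ⟨v, hv, T, hT, hr⟩ := h
  refine hT.trans ?_
  rw [← w_card_bx]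
  exact_mod_cast Finset.card_le_card fun u hu => w_reach_bx hv (hr u hu)

theorem big_up {N : ℝ} {m n : ℕ} (h : m ≤ n) {F G : Finset Edg} (hFG : F ⊆ G) (hF : Big N m F) :
    Big N n G := by
  obtain ⟨v, hv, T, hT, hr⟩ := hF
  refine ⟨v, bx_mono' h hv, T, hT, fun u hu => (hr u hu).mono ?_⟩
  rintro e ⟨h1, h2⟩
  exact ⟨hFG h1, boxE_mono h h2⟩

/-- closing the edges in `D` does not matter, if the cluster does not visit their endpoints -/
theorem reach_sdiff' {F D : Set Edg} {B : Set Vtx} (hD : ∀ e ∈ D, src e ∈ B ∧ tgt e ∈ B)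
    {u w : Vtx} (h : ∀ z ∈ B, ¬ Reach (F \ D) u z) (hr : Reach F u w) : Reach (F \ D) u w := by
  induction hr with
  | refl => exact Reach.refl _ _
  | tail _ hs ih =>
    obtain ⟨e, he, hc⟩ := hs
    refine ih.trans (Adj.reach ⟨e, ⟨he, fun heD => ?_⟩, hc⟩)
    rcases hc with ⟨h1, h2⟩ | ⟨h1, h2⟩
    · exact h _ (hD e heD).1 (h1 ▸ ih)
    · exact h _ (hD e heD).2 (h2 ▸ ih)

/-- closing the edges of a small box -/
theorem big_cut {k R n : ℕ} {N : ℝ} {F : Finset Edg} (hkR : k ≤ R)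
    (h1 : ¬ Crx k R (↑F)) (h2 : ¬ Big N R F) (h : Big N n F) :
    Big N n (F \ boxE k) := by
  obtain ⟨v, hv, T, hT, hr⟩ := h
  have hno : ∀ z ∈ bx k, ¬ Reach (↑F ∩ ↑(boxE n)) v z := by
    intro z hz hvz
    apply h2
    have inside : ∀ w, Reach (↑F ∩ ↑(boxE n)) z w →
        (-(R:ℤ) ≤ w.1 ∧ w.1 ≤ R) ∧ (-(R:ℤ) ≤ w.2 ∧ w.2 ≤ R) := by
      intro w hw
      by_contra hcon
      refine h1 ⟨z, w, ?_, ?_, hw.mono Set.inter_subset_left⟩
      · rw [w_mem_bx] at hz
        unfold inR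
        omega
      · omega
    refine ⟨z, bx_mono' hkR hz, T, hT, fun u hu => ?_⟩
    have key : ∀ w, Reach (↑F ∩ ↑(boxE n)) z w → Reach (↑F ∩ ↑(boxE R)) z w := by
      intro w hw
      induction hw with
      | refl => exact Reach.refl _ _
      | @tail w w' hw hs ih =>
        have i1 := inside w hw
        have i2 := inside w' (Relation.ReflTransGen.tail hw hs)
        obtain ⟨e, ⟨heF, -⟩, hc⟩ := hs
        refine ih.trans (Adj.reach ⟨e, ⟨heF, ?_⟩, hc⟩)
        rw [Finset.mem_coe, InfMax.mem_boxE, w_mem_bx, w_mem_bx]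
        rcases hc with ⟨h3, h4⟩ | ⟨h3, h4⟩
        · rw [h3, h4]
          exact ⟨i1, i2⟩
        · rw [h3, h4]
          exact ⟨i2, i1⟩
    exact key u (hvz.symm.trans (hr u hu))
  refine ⟨v, hv, T, hT, fun u hu => ?_⟩
  have e1 : (↑(F \ boxE k) : Set Edg) ∩ ↑(boxE n) = (↑F ∩ ↑(boxE n)) \ ↑(boxE k) := by
    rw [Finset.coe_sdiff]
    ext e
    simp only [Set.mem_inter_iff, Set.mem_sdiff]
    tauto
  rw [e1]
  refine reach_sdiff' (B := ↑(bx k)) ?_ ?_ (hr u hu)
  · intro e he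
    rw [Finset.mem_coe, InfMax.mem_boxE] at he
    exact he
  · intro z hz hvz
    exact hno z hz (hvz.mono Set.sdiff_subset)

/-- the probability of a connection from the box of size `k` to distance `R` -/
theorem crs_prob (hAr : ArSharp) : ∃ C c : ℝ, 0 < C ∧ 0 < c ∧ ∀ k R : ℕ, 1 ≤ k → 3 * k ≤ R →
    ∀ S : Finset Edg, Pr P S (fun F => Crx k R (↑F)) ≤ C * ((k:ℝ) / R) ^ c := by
  obtain ⟨C, hC, h⟩ := Pool.Agent.H389R2.CD.barm_le hAr
  refine ⟨C, 5/48, hC, by norm_num, fun k R h1 h2 S => ?_⟩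
  refine le_trans (Pr_mono w_ok (B := Pool.Agent.H389R2.CD.Ex1 (0, 0) k R) ?_)
    ((Pool.Agent.H389R2.CD.pr_Ex1 S (0, 0) k R).trans (h k R h1 h2))
  rintro F _ ⟨x, y, hx, hy, hr⟩
  refine Pool.Agent.H389R2.CD.Ex1_of_reach (A := ∅) (c := (0, 0)) (by omega) (by simp) hx hy ?_
  rw [Set.union_empty]
  exact hr

/-- events of the edges between two boxes -/
theorem pr_between {k n : ℕ} (A : Finset Edg → Prop) :
    Pr P (boxE n \ boxE k) A = Pr P (boxE n) (fun F => A (F \ boxE k)) := by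
  have hsub : boxE n \ boxE k ⊆ boxE n := Finset.sdiff_subset
  rw [Pr_local hsub (A := fun F => A (F \ boxE k))]
  · refine Pr_congr fun F hF => ?_
    have : F \ boxE k = F := by
      rw [Finset.sdiff_eq_self_iff_disjoint]
      refine Finset.disjoint_of_subset_left hF ?_
      exact Finset.sdiff_disjoint
    rw [this]
  · intro F hF
    have : (F ∩ (boxE n \ boxE k)) \ boxE k = F \ boxE k := by
      ext e
      simp only [Finset.mem_inter, Finset.mem_sdiff]
      constructor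
      · rintro ⟨⟨h1, -⟩, h2⟩
        exact ⟨h1, h2⟩
      · rintro ⟨h1, h2⟩
        exact ⟨⟨h1, hF h1, h2⟩, h2⟩
    rw [this]

theorem op_between (k n : ℕ) (ω : Edg → Bool) : op (boxE n \ boxE k) ω = op (boxE n) ω \ boxE k := by
  ext e
  unfold op
  simp only [Finset.mem_filter, Finset.mem_sdiff]
  tauto

theorem op_mono {m n : ℕ} (h : m ≤ n) (ω : Edg → Bool) : op (boxE m) ω ⊆ op (boxE n) ω := by
  intro e he
  unfold op at he ⊢
  rw [Finset.mem_filter] at he ⊢
  exact ⟨boxE_mono h he.1, he.2⟩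

end Pool.Agent.U154.LIL
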