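import Mathlib

/-!
The rates of the laws of the iterated logarithm.
-/

set_option autoImplicit false

namespace Pool.Agent.U154.LIL

open Filter Topology

/-- `log log n` -/
noncomputable def LL (n : ℕ) : ℝ := Real.log (Real.log n)

/-- the upper rate -/
noncomputable def rU (n : ℕ) : ℝ := (n:ℝ) ^ (91/48 : ℝ) * (LL n) ^ (5/96 : ℝ)

/-- the lower rate -/
noncomputable def rL (n : ℕ) : ℝ := (n:ℝ) ^ (91/48 : ℝ) * (LL n) ^ (-(91/96) : ℝ)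

theorem tend_log : Tendsto (fun n : ℕ => Real.log (n:ℝ)) atTop atTop :=
  Real.tendsto_log_atTop.comp tendsto_natCast_atTop_atTop

theorem tend_LL : Tendsto LL atTop atTop := Real.tendsto_log_atTop.comp tend_log

theorem tend_log2 : Tendsto (fun n : ℕ => Nat.log 2 n) atTop atTop :=
  tendsto_atTop.2 fun b => eventually_atTop.2 ⟨2 ^ b, fun n hn =>
    Nat.le_log_of_pow_le (by norm_num) hn⟩

theorem rU_pos : ∀ᶠ n : ℕ in atTop, 0 < rU n := by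
  filter_upwards [tend_LL.eventually_ge_atTop 1, eventually_ge_atTop 1] with n h1 h2
  have : (0:ℝ) < n := by exact_mod_cast h2
  have : 0 < LL n := by linarith
  unfold rU
  positivity

theorem rL_pos : ∀ᶠ n : ℕ in atTop, 0 < rL n := by
  filter_upwards [tend_LL.eventually_ge_atTop 1, eventually_ge_atTop 1] with n h1 h2
  have : (0:ℝ) < n := by exact_mod_cast h2
  have : 0 < LL n := by linarith
  unfold rL
  positivity

theorem rL_le_rU : ∀ᶠ n : ℕ in atTop, rL n ≤ rU n := by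
  filter_upwards [tend_LL.eventually_ge_atTop 1] with n h1
  unfold rL rU
  refine mul_le_mul_of_nonneg_left ?_ (by positivity)
  exact Real.rpow_le_rpow_of_exponent_le h1 (by norm_num)

/-- powers of `log log n` -/
theorem LL_pow {n : ℕ} (h : 1 ≤ LL n) : (LL n) ^ (91/96 : ℝ) ≤ LL n := by
  calc (LL n) ^ (91/96 : ℝ) ≤ (LL n) ^ (1 : ℝ) :=
        Real.rpow_le_rpow_of_exponent_le h (by norm_num)
    _ = LL n := Real.rpow_one _

theorem rL_eq {n : ℕ} (h : 1 ≤ LL n) : rL n = (n:ℝ) ^ (91/48 : ℝ) / (LL n) ^ (91/96 : ℝ) := by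
  unfold rL
  rw [Real.rpow_neg (by linarith)]
  exact (div_eq_mul_inv _ _).symm

theorem LL_le_log {n : ℕ} (h : 1 ≤ Real.log n) : LL n ≤ Real.log n := by
  unfold LL
  have := Real.log_le_sub_one_of_pos (show 0 < Real.log (n:ℝ) by linarith)
  linarith

theorem ten_le {t : ℝ} (ht : 0 < t) : ∀ᶠ n : ℕ in atTop, 10 * (n:ℝ) ≤ t * rL n := by
  have hp : Tendsto (fun n : ℕ => (n:ℝ) ^ (19/48 : ℝ)) atTop atTop :=
    (tendsto_rpow_atTop (by norm_num)).comp tendsto_natCast_atTop_atTop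
  filter_upwards [tend_LL.eventually_ge_atTop 1, tend_log.eventually_ge_atTop 1,
    hp.eventually_ge_atTop (20 / t), eventually_ge_atTop 1] with n h1 h2 h3 h4
  have hn0 : (0:ℝ) < n := by exact_mod_cast h4
  have hL0 : 0 < (LL n) ^ (91/96 : ℝ) := Real.rpow_pos_of_pos (by linarith) _
  have a1 : (LL n) ^ (91/96 : ℝ) ≤ 2 * (n:ℝ) ^ (1/2 : ℝ) := by
    have := Real.log_le_rpow_div hn0.le (show (0:ℝ) < 1/2 by norm_num)
    calc (LL n) ^ (91/96 : ℝ) ≤ LL n := LL_pow h1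
      _ ≤ Real.log n := LL_le_log h2
      _ ≤ (n:ℝ) ^ (1/2 : ℝ) / (1/2) := this
      _ = _ := by ring
  rw [rL_eq h1, ← mul_div_assoc, le_div_iff₀ hL0]
  rw [div_le_iff₀ ht] at h3
  have e1 : (n:ℝ) ^ (91/48 : ℝ) = (n:ℝ) ^ (19/48 : ℝ) * (n * (n:ℝ) ^ (1/2 : ℝ)) := by
    rw [← Real.rpow_one_add' hn0.le (by norm_num), ← Real.rpow_add hn0]
    norm_num
  have hp0 : 0 < (n:ℝ) ^ (1/2 : ℝ) := Real.rpow_pos_of_pos hn0 _
  calc 10 * (n:ℝ) * (LL n) ^ (91/96 : ℝ) ≤ 10 * (n:ℝ) * (2 * (n:ℝ) ^ (1/2 : ℝ)) :=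
        mul_le_mul_of_nonneg_left a1 (by positivity)
    _ = 20 * (n * (n:ℝ) ^ (1/2 : ℝ)) := by ring
    _ ≤ ((n:ℝ) ^ (19/48 : ℝ) * t) * (n * (n:ℝ) ^ (1/2 : ℝ)) :=
        mul_le_mul_of_nonneg_right h3 (by positivity)
    _ = _ := by rw [e1]; ring

/-- the upper rate is smaller than the volume of the box -/
theorem rU_le {b : ℝ} (hb : 0 < b) : ∀ᶠ n : ℕ in atTop, b * rU n ≤ (2 * (n:ℝ) + 1) ^ 2 := by
  have hp : Tendsto (fun n : ℕ => (n:ℝ) ^ (5/96 : ℝ)) atTop atTop :=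
    (tendsto_rpow_atTop (by norm_num)).comp tendsto_natCast_atTop_atTop
  filter_upwards [tend_LL.eventually_ge_atTop 1, tend_log.eventually_ge_atTop 1,
    hp.eventually_ge_atTop b, eventually_ge_atTop 1] with n h1 h2 h3 h4
  have hn0 : (0:ℝ) < n := by exact_mod_cast h4
  have hp0 : 0 < (n:ℝ) ^ (5/96 : ℝ) := Real.rpow_pos_of_pos hn0 _
  have a1 : (LL n) ^ (5/96 : ℝ) ≤ (n:ℝ) ^ (5/96 : ℝ) := by
    refine Real.rpow_le_rpow (by linarith) ((LL_le_log h2).trans ?_) (by norm_num)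
    have := Real.log_le_sub_one_of_pos hn0
    linarith
  have a2 : (n:ℝ) ^ (5/96 : ℝ) * ((n:ℝ) ^ (91/48 : ℝ) * (n:ℝ) ^ (5/96 : ℝ)) = (n:ℝ) ^ 2 := by
    rw [← Real.rpow_add hn0, ← Real.rpow_add hn0, ← Real.rpow_natCast]
    norm_num
  have h0 : 0 ≤ (LL n) ^ (5/96 : ℝ) := Real.rpow_nonneg (by linarith) _
  unfold rU
  calc b * ((n:ℝ) ^ (91/48 : ℝ) * (LL n) ^ (5/96 : ℝ))
      ≤ (n:ℝ) ^ (5/96 : ℝ) * ((n:ℝ) ^ (91/48 : ℝ) * (n:ℝ) ^ (5/96 : ℝ)) := by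
        refine mul_le_mul h3 (mul_le_mul_of_nonneg_left a1 (by positivity)) (by positivity)
          hp0.le
    _ = (n:ℝ) ^ 2 := a2
    _ ≤ _ := by nlinarith

/-- the dyadic scale of `n` -/
theorem log_m : ∀ᶠ n : ℕ in atTop, 1 ≤ Real.log ((Nat.log 2 n : ℕ) : ℝ) ∧
    Real.log ((Nat.log 2 n : ℕ) : ℝ) ≤ 2 * LL n ∧ 1 ≤ LL n := by
  filter_upwards [tend_LL.eventually_ge_atTop 1, tend_log.eventually_ge_atTop 2,
    (tend_log.comp tend_log2).eventually_ge_atTop 1, eventually_ge_atTop 1] with n h1 h2 h3 hn1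
  obtain ⟨m, hm⟩ : ∃ m, m = Nat.log 2 n := ⟨_, rfl⟩
  simp only [Function.comp_apply] at h3
  rw [← hm] at h3 ⊢
  refine ⟨h3, ?_, h1⟩
  have hmn : 2 ^ m ≤ n := by rw [hm]; exact Nat.pow_log_le_self 2 (by omega)
  have hm0 : (0:ℝ) < m := by
    by_contra hcon
    have : (m:ℝ) = 0 := le_antisymm (not_lt.1 hcon) (Nat.cast_nonneg _)
    rw [this, Real.log_zero] at h3
    linarith
  have g1 : (m:ℝ) * Real.log 2 ≤ Real.log n := by
    rw [← Real.log_pow]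
    refine Real.log_le_log (by positivity) ?_
    exact_mod_cast hmn
  have g2 : (1/2 : ℝ) ≤ Real.log 2 := by
    have := Real.log_two_gt_d9
    linarith
  have g3 : (m:ℝ) ≤ Real.log n * Real.log n := by nlinarith
  calc Real.log m ≤ Real.log (Real.log n * Real.log n) := Real.log_le_log hm0 g3
    _ = 2 * LL n := by
      rw [Real.log_mul (by linarith) (by linarith)]
      unfold LL
      ring

theorem two_pow {s : ℝ} (h1 : s ≤ 1) : (2:ℝ) ^ s ≤ 2 := by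
  calc (2:ℝ) ^ s ≤ 2 ^ (1:ℝ) := Real.rpow_le_rpow_of_exponent_le (by norm_num) h1
    _ = 2 := by norm_num

/-- the dyadic level from above -/
theorem dy_up {B : ℝ} (hB : 0 < B) : ∀ᶠ n : ℕ in atTop,
    B * (Real.log ((Nat.log 2 n : ℕ) : ℝ)) ^ (5/96 : ℝ) *
      (((2 ^ (Nat.log 2 n + 1) : ℕ)) : ℝ) ^ (91/48 : ℝ) ≤ 8 * B * rU n := by
  filter_upwards [log_m, eventually_ge_atTop 1] with n h hn1
  obtain ⟨h1, h2, h3⟩ := h
  obtain ⟨m, hm⟩ : ∃ m, m = Nat.log 2 n := ⟨_, rfl⟩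
  rw [← hm] at h1 h2 ⊢
  have hn0 : (0:ℝ) < n := by exact_mod_cast hn1
  have hmn : 2 ^ m ≤ n := by rw [hm]; exact Nat.pow_log_le_self 2 (by omega)
  have a1 : (((2 ^ (m + 1) : ℕ)) : ℝ) ^ (91/48 : ℝ) ≤ 4 * (n:ℝ) ^ (91/48 : ℝ) := by
    calc (((2 ^ (m + 1) : ℕ)) : ℝ) ^ (91/48 : ℝ) ≤ (2 * (n:ℝ)) ^ (91/48 : ℝ) := by
          refine Real.rpow_le_rpow (by positivity) ?_ (by norm_num)
          have : 2 ^ (m + 1) ≤ 2 * n := by rw [pow_succ]; omega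
          exact_mod_cast this
      _ = (2:ℝ) ^ (91/48 : ℝ) * (n:ℝ) ^ (91/48 : ℝ) := Real.mul_rpow (by norm_num) hn0.le
      _ ≤ 4 * (n:ℝ) ^ (91/48 : ℝ) := by
          refine mul_le_mul_of_nonneg_right ?_ (by positivity)
          calc (2:ℝ) ^ (91/48 : ℝ) ≤ 2 ^ (2:ℝ) :=
                Real.rpow_le_rpow_of_exponent_le (by norm_num) (by norm_num)
            _ = 4 := by norm_num
  have a2 : (Real.log (m:ℝ)) ^ (5/96 : ℝ) ≤ 2 * (LL n) ^ (5/96 : ℝ) := by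
    calc (Real.log (m:ℝ)) ^ (5/96 : ℝ) ≤ (2 * LL n) ^ (5/96 : ℝ) :=
          Real.rpow_le_rpow (by linarith) h2 (by norm_num)
      _ = (2:ℝ) ^ (5/96 : ℝ) * (LL n) ^ (5/96 : ℝ) := Real.mul_rpow (by norm_num) (by linarith)
      _ ≤ _ := mul_le_mul_of_nonneg_right (two_pow (by norm_num))
          (Real.rpow_nonneg (by linarith) _)
  have a3 : 0 ≤ (LL n) ^ (5/96 : ℝ) := Real.rpow_nonneg (by linarith) _
  unfold rU
  calc B * (Real.log (m:ℝ)) ^ (5/96 : ℝ) * (((2 ^ (m + 1) : ℕ)) : ℝ) ^ (91/48 : ℝ)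
      ≤ B * (2 * (LL n) ^ (5/96 : ℝ)) * (4 * (n:ℝ) ^ (91/48 : ℝ)) :=
        mul_le_mul (mul_le_mul_of_nonneg_left a2 hB.le) a1 (by positivity) (by positivity)
    _ = _ := by ring

/-- the dyadic level from below -/
theorem dy_low {B : ℝ} (hB : 0 < B) : ∀ᶠ n : ℕ in atTop,
    1 / (8 * B) * rL n ≤ (((2 ^ Nat.log 2 n : ℕ)) : ℝ) ^ (91/48 : ℝ) /
      (B * (Real.log ((Nat.log 2 n : ℕ) : ℝ)) ^ (91/96 : ℝ)) := by
  filter_upwards [log_m, eventually_ge_atTop 1] with n h hn1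
  obtain ⟨h1, h2, h3⟩ := h
  obtain ⟨m, hm⟩ : ∃ m, m = Nat.log 2 n := ⟨_, rfl⟩
  rw [← hm] at h1 h2 ⊢
  have hn0 : (0:ℝ) < n := by exact_mod_cast hn1
  have hmn : n < 2 ^ (m + 1) := by rw [hm]; exact Nat.lt_pow_succ_log_self (by norm_num) n
  have a1 : (n:ℝ) ^ (91/48 : ℝ) ≤ 4 * (((2 ^ m : ℕ)) : ℝ) ^ (91/48 : ℝ) := by
    calc (n:ℝ) ^ (91/48 : ℝ) ≤ (2 * (((2 ^ m : ℕ)) : ℝ)) ^ (91/48 : ℝ) := by
          refine Real.rpow_le_rpow (by positivity) ?_ (by norm_num)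
          have : n ≤ 2 * 2 ^ m := by rw [pow_succ] at hmn; omega
          exact_mod_cast this
      _ = (2:ℝ) ^ (91/48 : ℝ) * (((2 ^ m : ℕ)) : ℝ) ^ (91/48 : ℝ) :=
          Real.mul_rpow (by norm_num) (by positivity)
      _ ≤ 4 * (((2 ^ m : ℕ)) : ℝ) ^ (91/48 : ℝ) := by
          refine mul_le_mul_of_nonneg_right ?_ (by positivity)
          calc (2:ℝ) ^ (91/48 : ℝ) ≤ 2 ^ (2:ℝ) :=
                Real.rpow_le_rpow_of_exponent_le (by norm_num) (by norm_num)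
            _ = 4 := by norm_num
  have a2 : (Real.log (m:ℝ)) ^ (91/96 : ℝ) ≤ 2 * (LL n) ^ (91/96 : ℝ) := by
    calc (Real.log (m:ℝ)) ^ (91/96 : ℝ) ≤ (2 * LL n) ^ (91/96 : ℝ) :=
          Real.rpow_le_rpow (by linarith) h2 (by norm_num)
      _ = (2:ℝ) ^ (91/96 : ℝ) * (LL n) ^ (91/96 : ℝ) := Real.mul_rpow (by norm_num) (by linarith)
      _ ≤ _ := mul_le_mul_of_nonneg_right (two_pow (by norm_num))
          (Real.rpow_nonneg (by linarith) _)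
  have a3 : 0 < (LL n) ^ (91/96 : ℝ) := Real.rpow_pos_of_pos (by linarith) _
  have a4 : 0 < (Real.log (m:ℝ)) ^ (91/96 : ℝ) := Real.rpow_pos_of_pos (by linarith) _
  rw [rL_eq h3, le_div_iff₀ (by positivity)]
  calc 1 / (8 * B) * ((n:ℝ) ^ (91/48 : ℝ) / (LL n) ^ (91/96 : ℝ)) *
        (B * (Real.log (m:ℝ)) ^ (91/96 : ℝ))
      ≤ 1 / (8 * B) * ((4 * (((2 ^ m : ℕ)) : ℝ) ^ (91/48 : ℝ)) / (LL n) ^ (91/96 : ℝ)) *
        (B * (2 * (LL n) ^ (91/96 : ℝ))) := by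
        refine mul_le_mul ?_ (mul_le_mul_of_nonneg_left a2 hB.le) (by positivity) (by positivity)
        refine mul_le_mul_of_nonneg_left ?_ (by positivity)
        exact div_le_div_of_nonneg_right a1 a3.le
    _ = _ := by
        field_simp
        norm_num

/-- the scales -/
def Nj (j : ℕ) : ℕ := 2 ^ ((j + 1) ^ 2)

/-- the intermediate scales -/
def Rj (j : ℕ) : ℕ := 2 ^ ((j + 1) ^ 2 + (j + 1))

theorem Nj_mono {i j : ℕ} (h : i ≤ j) : Nj i ≤ Nj j := by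
  unfold Nj
  exact Nat.pow_le_pow_right (by norm_num) (Nat.pow_le_pow_left (by omega) 2)

theorem Nj_ge (j : ℕ) : j ≤ Nj j := by
  unfold Nj
  have h1 : j ≤ (j + 1) ^ 2 := by nlinarith
  exact h1.trans (Nat.lt_two_pow_self).le

theorem Nj_pos (j : ℕ) : 1 ≤ Nj j := Nat.one_le_two_pow

theorem Rj_pos (j : ℕ) : 1 ≤ Rj j := Nat.one_le_two_pow

theorem Nj_le_Rj (j : ℕ) : Nj j ≤ Rj j := Nat.pow_le_pow_right (by norm_num) (by omega)

theorem Nj_succ (j : ℕ) : Nj (j + 1) = Rj j * 2 ^ (j + 2) := by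
  unfold Nj Rj
  rw [← pow_add]
  congr 1
  ring

theorem Rj_eq (j : ℕ) : Rj j = Nj j * 2 ^ (j + 1) := by
  unfold Nj Rj
  rw [← pow_add]

theorem tend_Nj : Tendsto (fun j : ℕ => Nj (j + 1)) atTop atTop :=
  tendsto_atTop_mono (fun j => (Nat.le_succ j).trans (Nj_ge (j + 1))) tendsto_id

theorem LL_Nj {j : ℕ} (h : 1 ≤ Real.log (Nj (j + 1) : ℝ)) :
    LL (Nj (j + 1)) ≤ 2 * Real.log ((j:ℝ) + 2) := by
  have b1 : Real.log (Nj (j + 1) : ℝ) ≤ ((j:ℝ) + 2) ^ 2 := by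
    unfold Nj
    push_cast
    rw [Real.log_pow]
    push_cast
    have b2 : Real.log 2 ≤ 1 := by have := Real.log_two_lt_d9; linarith
    calc ((j:ℝ) + 1 + 1) ^ 2 * Real.log 2 ≤ ((j:ℝ) + 1 + 1) ^ 2 * 1 :=
          mul_le_mul_of_nonneg_left b2 (by positivity)
      _ = _ := by ring
  unfold LL
  calc Real.log (Real.log (Nj (j + 1) : ℝ)) ≤ Real.log (((j:ℝ) + 2) ^ 2) :=
        Real.log_le_log (by linarith) b1
    _ = _ := by rw [Real.log_pow]; norm_num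

/-- the volume of the intermediate box is small compared with the rates -/
theorem mid_small {c : ℝ} (hc : 0 < c) : ∀ᶠ j : ℕ in atTop,
    (2:ℝ) ^ j * (Rj j : ℝ) ^ (91/48 : ℝ) ≤ c * rL (Nj (j + 1)) := by
  have hq : (1:ℝ) < Real.sqrt 2 := by
    rw [Real.lt_sqrt (by norm_num)]
    norm_num
  have h0 : Tendsto (fun j : ℕ => (((j + 2 : ℕ)) : ℝ) ^ 1 / (Real.sqrt 2) ^ (j + 2)) atTop (𝓝 0) :=
    (tendsto_pow_const_div_const_pow_of_one_lt 1 hq).comp (tendsto_add_atTop_nat 2)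
  filter_upwards [(tend_LL.comp tend_Nj).eventually_ge_atTop 1,
    (tend_log.comp tend_Nj).eventually_ge_atTop 1,
    h0.eventually (gt_mem_nhds (show (0:ℝ) < c by exact hc))] with j h1 h2 h3
  simp only [Function.comp_apply] at h1 h2
  have hj0 : (0:ℝ) < (j:ℝ) + 2 := by positivity
  have hs0 : 0 < (Real.sqrt 2) ^ (j + 2) := by positivity
  rw [div_lt_iff₀ hs0, pow_one] at h3
  push_cast at h3
  have hL : (LL (Nj (j + 1))) ^ (91/96 : ℝ) ≤ 2 * ((j:ℝ) + 2) := by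
    calc (LL (Nj (j + 1))) ^ (91/96 : ℝ) ≤ LL (Nj (j + 1)) := LL_pow h1
      _ ≤ 2 * Real.log ((j:ℝ) + 2) := LL_Nj h2
      _ ≤ 2 * ((j:ℝ) + 2) := by
        have := Real.log_le_sub_one_of_pos hj0
        linarith
  have hL0 : 0 < (LL (Nj (j + 1))) ^ (91/96 : ℝ) := Real.rpow_pos_of_pos (by linarith) _
  have hR0 : (0:ℝ) < Rj j := by exact_mod_cast Rj_pos j
  have e1 : ((Nj (j + 1) : ℕ) : ℝ) ^ (91/48 : ℝ) =
      (Rj j : ℝ) ^ (91/48 : ℝ) * ((2:ℝ) ^ (j + 2)) ^ (91/48 : ℝ) := by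
    rw [Nj_succ]
    push_cast
    rw [Real.mul_rpow hR0.le (by positivity)]
  have e2 : (2:ℝ) ^ (j + 2) * (Real.sqrt 2) ^ (j + 2) ≤ ((2:ℝ) ^ (j + 2)) ^ (91/48 : ℝ) := by
    have h4 : (Real.sqrt 2) ^ (j + 2) = ((2:ℝ) ^ (j + 2)) ^ (1/2 : ℝ) := by
      rw [Real.sqrt_eq_rpow, ← Real.rpow_natCast, ← Real.rpow_natCast,
        ← Real.rpow_mul (by norm_num), ← Real.rpow_mul (by norm_num), mul_comm]
    rw [h4]
    have h5 : (1:ℝ) ≤ (2:ℝ) ^ (j + 2) := one_le_pow₀ (by norm_num)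
    calc (2:ℝ) ^ (j + 2) * ((2:ℝ) ^ (j + 2)) ^ (1/2 : ℝ) = ((2:ℝ) ^ (j + 2)) ^ (3/2 : ℝ) := by
          rw [← Real.rpow_one_add' (by positivity) (by norm_num)]
          norm_num
      _ ≤ _ := Real.rpow_le_rpow_of_exponent_le h5 (by norm_num)
  rw [rL_eq h1, ← mul_div_assoc, le_div_iff₀ hL0, e1]
  have hRR : 0 < (Rj j : ℝ) ^ (91/48 : ℝ) := Real.rpow_pos_of_pos hR0 _
  calc (2:ℝ) ^ j * (Rj j : ℝ) ^ (91/48 : ℝ) * (LL (Nj (j + 1))) ^ (91/96 : ℝ)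
      ≤ (2:ℝ) ^ j * (Rj j : ℝ) ^ (91/48 : ℝ) * (2 * ((j:ℝ) + 2)) :=
        mul_le_mul_of_nonneg_left hL (by positivity)
    _ ≤ (2:ℝ) ^ j * (Rj j : ℝ) ^ (91/48 : ℝ) * (2 * (c * (Real.sqrt 2) ^ (j + 2))) := by
        refine mul_le_mul_of_nonneg_left ?_ (by positivity)
        linarith
    _ ≤ (2:ℝ) ^ j * (Rj j : ℝ) ^ (91/48 : ℝ) * (4 * (c * (Real.sqrt 2) ^ (j + 2))) := by
        refine mul_le_mul_of_nonneg_left ?_ (by positivity)
        have : 0 ≤ c * (Real.sqrt 2) ^ (j + 2) := by positivity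
        linarith
    _ = c * ((Rj j : ℝ) ^ (91/48 : ℝ) * ((2:ℝ) ^ (j + 2) * (Real.sqrt 2) ^ (j + 2))) := by
        rw [pow_add (2:ℝ) j 2]
        ring
    _ ≤ _ := by
        refine mul_le_mul_of_nonneg_left ?_ hc.le
        exact mul_le_mul_of_nonneg_left e2 hRR.le

end Pool.Agent.U154.LIL
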