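import Pool.Agent.U154.LIL.Cut
import Pool.Agent.U154.LIL.Rates

/-!
The four halves of the laws of the iterated logarithm for the largest cluster.
-/

set_option autoImplicit false

namespace Pool.Agent.U154.LIL

open MeasureTheory Filter Topology
open H974 Pool.Agent.H160R2.CV Pool.Agent.Y244.PC Pool.Agent.N956.PL

theorem lvl {c0 s r : ℝ} (hc0 : 0 < c0) (hs : 0 ≤ s) (hr : 0 ≤ r) (hsr : s * r = 1) :
    ∃ B : ℝ, 1 ≤ B ∧ ∀ y : ℝ, 1 ≤ y → 1 ≤ B * y ^ s ∧ 2 * y ≤ c0 * (B * y ^ s) ^ r := by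
  have h0 : 0 ≤ (2 / c0) ^ s := Real.rpow_nonneg (by positivity) _
  obtain ⟨B, hB⟩ : ∃ B : ℝ, B = (2 / c0) ^ s + 1 := ⟨_, rfl⟩
  have hB1 : 1 ≤ B := by rw [hB]; linarith
  have hBp : 2 / c0 ≤ B ^ r := by
    calc 2 / c0 = ((2 / c0) ^ s) ^ r := by
          rw [← Real.rpow_mul (by positivity), hsr, Real.rpow_one]
      _ ≤ _ := Real.rpow_le_rpow h0 (by rw [hB]; linarith) hr
  refine ⟨B, hB1, fun y hy => ⟨?_, ?_⟩⟩
  · exact one_le_mul_of_one_le_of_one_le hB1 (Real.one_le_rpow hy hs)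
  · have hy0 : 0 < y := by linarith
    rw [Real.mul_rpow (by linarith) (by positivity), ← Real.rpow_mul hy0.le, hsr, Real.rpow_one]
    rw [div_le_iff₀ hc0] at hBp
    calc 2 * y ≤ (B ^ r * c0) * y := mul_le_mul_of_nonneg_right hBp hy0.le
      _ = _ := by ring

theorem lvl2 {C1 s r : ℝ} (hC1 : 0 < C1) (hsr : s * r = 1) :
    ∃ b : ℝ, 0 < b ∧ ∀ y : ℝ, 0 < y → C1 * (b * y ^ s) ^ r = y / 4 := by
  obtain ⟨b, hb⟩ : ∃ b : ℝ, b = (1 / (4 * C1)) ^ s := ⟨_, rfl⟩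
  have hb0 : 0 < b := by rw [hb]; positivity
  refine ⟨b, hb0, fun y hy => ?_⟩
  have e : b ^ r = 1 / (4 * C1) := by
    rw [hb, ← Real.rpow_mul (by positivity), hsr, Real.rpow_one]
  rw [Real.mul_rpow hb0.le (by positivity), ← Real.rpow_mul hy.le, hsr, Real.rpow_one, e]
  field_simp

theorem exp_log_sq {m : ℕ} (hm : 1 ≤ Real.log (m:ℝ)) {y : ℝ} (h : 2 * Real.log m ≤ y) :
    Real.exp (-y) ≤ ((m:ℝ) ^ 2)⁻¹ := by
  have hm0 : (0:ℝ) < m := by
    by_contra hcon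
    have : (m:ℝ) = 0 := le_antisymm (not_lt.1 hcon) (Nat.cast_nonneg _)
    rw [this, Real.log_zero] at hm
    linarith
  calc Real.exp (-y) ≤ Real.exp (-(2 * Real.log m)) := Real.exp_le_exp.2 (by linarith)
    _ = ((m:ℝ) ^ 2)⁻¹ := by
      rw [Real.exp_neg, two_mul, Real.exp_add, Real.exp_log hm0]
      ring

theorem ok2 : Ok (fun _ : Edg => (1/2:ℝ)) := w_ok

/-- the largest cluster is almost surely not larger than the upper rate -/
theorem up_sup {c0 C0 : ℝ} (hc0 : 0 < c0)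
    (hU : ∀ n : ℕ, 1 ≤ n → ∀ x : ℝ, 1 ≤ x → Pr P (boxE n) (Big (x * (n : ℝ) ^ (91 / 48 : ℝ)) n) ≤
      C0 * Real.exp (-(c0 * x ^ (96 / 5 : ℝ)))) :
    ∃ C : ℝ, 0 < C ∧ ∀ᵐ ω ∂crit, ∀ᶠ n : ℕ in atTop, ¬ Big (C * rU n) n (op (boxE n) ω) := by
  obtain ⟨B, hB1, hB⟩ := lvl (s := 5/96) (r := 96/5) hc0 (by norm_num) (by norm_num) (by norm_num)
  have hB0 : 0 < B := by linarith
  refine ⟨8 * B, by positivity, ?_⟩
  have hs : Summable (fun m : ℕ => Pr (fun _ => (1/2:ℝ)) (boxE (2 ^ (m + 1)))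
      (Big (B * (Real.log (m:ℝ)) ^ (5/96 : ℝ) * (((2 ^ (m + 1) : ℕ)) : ℝ) ^ (91/48 : ℝ))
        (2 ^ (m + 1)))) := by
    have hs0 : Summable (fun m : ℕ => C0 * ((m:ℝ) ^ 2)⁻¹) :=
      Summable.mul_left C0 (Real.summable_nat_pow_inv.2 (by norm_num))
    refine Summable.of_norm_bounded_eventually_nat hs0 ?_
    filter_upwards [tend_log.eventually_ge_atTop 1] with m hm
    rw [Real.norm_of_nonneg (Pr_nonneg ok2 _ _)]
    have h1 := hU (2 ^ (m + 1)) Nat.one_le_two_pow _ (hB _ hm).1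
    refine h1.trans ?_
    have hC0 : 0 ≤ C0 := by
      by_contra hcon
      have h2 := Pr_nonneg w_ok (boxE 1) (Big (1 * ((1:ℕ) : ℝ) ^ (91 / 48 : ℝ)) 1)
      have h3 := h2.trans (hU 1 le_rfl 1 le_rfl)
      have h4 := mul_neg_of_neg_of_pos (not_le.1 hcon)
        (Real.exp_pos (-(c0 * (1:ℝ) ^ (96 / 5 : ℝ))))
      linarith
    exact mul_le_mul_of_nonneg_left (exp_log_sq hm (hB _ hm).2) hC0
  filter_upwards [bc1 _ _ hs] with ω hω
  filter_upwards [tend_log2.eventually hω, dy_up hB0, eventually_ge_atTop 1] with n h1 h2 h3 hbig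
  apply h1
  refine big_le h2 (big_up ?_ (op_mono ?_ ω) hbig)
  · exact (Nat.lt_pow_succ_log_self (by norm_num) n).le
  · exact (Nat.lt_pow_succ_log_self (by norm_num) n).le

/-- the largest cluster is almost surely not smaller than the lower rate -/
theorem low_inf {c0 C0 : ℝ} (hc0 : 0 < c0)
    (hU : ∀ n : ℕ, 1 ≤ n → ∀ x : ℝ, 1 ≤ x →
      Pr P (boxE n) (fun F => ¬ Big ((⌊(n : ℝ) ^ (91 / 48 : ℝ) / x⌋₊ : ℝ) + 1) n F) ≤
      C0 * Real.exp (-(c0 * x ^ (96 / 91 : ℝ)))) :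
    ∃ c : ℝ, 0 < c ∧ ∀ᵐ ω ∂crit, ∀ᶠ n : ℕ in atTop, Big (c * rL n) n (op (boxE n) ω) := by
  obtain ⟨B, hB1, hB⟩ := lvl (s := 91/96) (r := 96/91) hc0 (by norm_num) (by norm_num)
    (by norm_num)
  have hB0 : 0 < B := by linarith
  refine ⟨1 / (8 * B), by positivity, ?_⟩
  have hs : Summable (fun m : ℕ => Pr (fun _ => (1/2:ℝ)) (boxE (2 ^ m))
      (fun F => ¬ Big ((⌊(((2 ^ m : ℕ)) : ℝ) ^ (91/48 : ℝ) /
        (B * (Real.log (m:ℝ)) ^ (91/96 : ℝ))⌋₊ : ℝ) + 1) (2 ^ m) F)) := by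
    have hs0 : Summable (fun m : ℕ => C0 * ((m:ℝ) ^ 2)⁻¹) :=
      Summable.mul_left C0 (Real.summable_nat_pow_inv.2 (by norm_num))
    refine Summable.of_norm_bounded_eventually_nat hs0 ?_
    filter_upwards [tend_log.eventually_ge_atTop 1] with m hm
    rw [Real.norm_of_nonneg (Pr_nonneg ok2 _ _)]
    have h1 := hU (2 ^ m) Nat.one_le_two_pow _ (hB _ hm).1
    refine h1.trans ?_
    have hC0 : 0 ≤ C0 := by
      by_contra hcon
      have h2 := Pr_nonneg w_ok (boxE 1)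
        (fun F => ¬ Big ((⌊((1:ℕ) : ℝ) ^ (91 / 48 : ℝ) / 1⌋₊ : ℝ) + 1) 1 F)
      have h3 := h2.trans (hU 1 le_rfl 1 le_rfl)
      have h4 := mul_neg_of_neg_of_pos (not_le.1 hcon)
        (Real.exp_pos (-(c0 * (1:ℝ) ^ (96 / 91 : ℝ))))
      linarith
    exact mul_le_mul_of_nonneg_left (exp_log_sq hm (hB _ hm).2) hC0
  filter_upwards [bc1 _ _ hs] with ω hω
  filter_upwards [tend_log2.eventually hω, dy_low hB0, eventually_ge_atTop 1] with n h1 h2 h3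
  rw [not_not] at h1
  have hle : 2 ^ Nat.log 2 n ≤ n := Nat.pow_log_le_self 2 (by omega)
  exact big_le (h2.trans (Nat.lt_floor_add_one _).le) (big_up hle (op_mono hle ω) h1)

/-- the bad event in one scale -/
def Ng (j : ℕ) (F : Finset Edg) : Prop :=
  Crx (Nj j) (Rj j) (↑F) ∨ Big ((2:ℝ) ^ j * (Rj j : ℝ) ^ (91/48 : ℝ)) (Rj j) F

theorem ng_sum (hAr : ArSharp) {c0 C0 : ℝ} (hc0 : 0 < c0)
    (hU : ∀ n : ℕ, 1 ≤ n → ∀ x : ℝ, 1 ≤ x → Pr P (boxE n) (Big (x * (n : ℝ) ^ (91 / 48 : ℝ)) n) ≤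
      C0 * Real.exp (-(c0 * x ^ (96 / 5 : ℝ)))) :
    Summable fun j : ℕ => Pr P (boxE (Nj (j + 1))) (Ng j) := by
  obtain ⟨C, c, hC, hc, hcr⟩ := crs_prob hAr
  have hC0 : 0 ≤ C0 := by
    by_contra hcon
    have h2 := Pr_nonneg w_ok (boxE 1) (Big (1 * ((1:ℕ) : ℝ) ^ (91 / 48 : ℝ)) 1)
    have h3 := h2.trans (hU 1 le_rfl 1 le_rfl)
    have h4 := mul_neg_of_neg_of_pos (not_le.1 hcon)
      (Real.exp_pos (-(c0 * (1:ℝ) ^ (96 / 5 : ℝ))))
    linarith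
  have hs0 : Summable (fun j : ℕ => C * (((1:ℝ)/2) ^ c) ^ (j + 1) + C0 / c0 * (1/2) ^ j) := by
    refine Summable.add (Summable.mul_left _ ?_) (Summable.mul_left _
      (summable_geometric_of_lt_one (by norm_num) (by norm_num)))
    exact (summable_nat_add_iff 1).2 (summable_geometric_of_lt_one (by positivity)
      (Real.rpow_lt_one (by norm_num) (by norm_num) hc))
  refine Summable.of_norm_bounded_eventually_nat hs0 ?_
  filter_upwards [eventually_ge_atTop 1] with j hj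
  rw [Real.norm_of_nonneg (Pr_nonneg w_ok _ _)]
  have h3k : 3 * Nj j ≤ Rj j := by
    have h4 : 2 ^ 2 ≤ 2 ^ (j + 1) := Nat.pow_le_pow_right (by norm_num) (by omega)
    rw [Rj_eq, mul_comm]
    exact Nat.mul_le_mul_left _ (by omega)
  have h1 := hcr (Nj j) (Rj j) (Nj_pos j) h3k (boxE (Nj (j + 1)))
  have hN0 : (0:ℝ) < (Nj j : ℝ) := by exact_mod_cast Nj_pos j
  have e1 : ((Nj j : ℝ) / (Rj j : ℝ)) ^ c = (((1:ℝ)/2) ^ c) ^ (j + 1) := by
    have e2 : (Nj j : ℝ) / (Rj j : ℝ) = (1/2) ^ (j + 1) := by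
      rw [Rj_eq]
      push_cast
      field_simp
      rw [← mul_pow]
      norm_num
    rw [e2, ← Real.rpow_natCast, ← Real.rpow_mul (by norm_num), mul_comm, Real.rpow_mul
      (by norm_num), Real.rpow_natCast]
  rw [e1] at h1
  have hsub : boxE (Rj j) ⊆ boxE (Nj (j + 1)) := boxE_mono (by
    rw [Nj_succ]
    exact Nat.le_mul_of_pos_right _ (by positivity))
  have h2 : Pr P (boxE (Nj (j + 1))) (Big ((2:ℝ) ^ j * (Rj j : ℝ) ^ (91/48 : ℝ)) (Rj j)) ≤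
      C0 / c0 * (1/2) ^ j := by
    rw [Pr_local hsub (A := Big ((2:ℝ) ^ j * (Rj j : ℝ) ^ (91/48 : ℝ)) (Rj j))
      (fun F _ => Big_local' (Finset.Subset.refl _))]
    refine (hU (Rj j) (Rj_pos j) ((2:ℝ) ^ j) (one_le_pow₀ (by norm_num))).trans ?_
    have h3 : (2:ℝ) ^ j ≤ ((2:ℝ) ^ j) ^ (96/5 : ℝ) := by
      calc (2:ℝ) ^ j = ((2:ℝ) ^ j) ^ (1:ℝ) := (Real.rpow_one _).symm
        _ ≤ _ := Real.rpow_le_rpow_of_exponent_le (one_le_pow₀ (by norm_num)) (by norm_num)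
    have h4 : 0 < c0 * (2:ℝ) ^ j := by positivity
    have h5 : Real.exp (-(c0 * ((2:ℝ) ^ j) ^ (96/5 : ℝ))) ≤ 1 / (c0 * (2:ℝ) ^ j) := by
      calc Real.exp (-(c0 * ((2:ℝ) ^ j) ^ (96/5 : ℝ))) ≤ Real.exp (-(c0 * (2:ℝ) ^ j)) := by
            refine Real.exp_le_exp.2 ?_
            have := mul_le_mul_of_nonneg_left h3 hc0.le
            linarith
        _ ≤ 1 / (c0 * (2:ℝ) ^ j) := by
            rw [Real.exp_neg, ← one_div]
            refine one_div_le_one_div_of_le h4 ?_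
            have := Real.add_one_le_exp (c0 * (2:ℝ) ^ j)
            linarith
    refine (mul_le_mul_of_nonneg_left h5 hC0).trans (le_of_eq ?_)
    rw [one_div, one_div, mul_inv, inv_pow]
    ring
  exact (Pr_or_le w_ok _ _ _).trans (add_le_add h1 h2)

theorem T_disj (i j : ℕ) (hij : i ≠ j) : Disjoint (boxE (Nj (i + 1)) \ boxE (Nj i))
    (boxE (Nj (j + 1)) \ boxE (Nj j)) := by
  have key : ∀ i j : ℕ, i < j → Disjoint (boxE (Nj (i + 1)) \ boxE (Nj i))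
      (boxE (Nj (j + 1)) \ boxE (Nj j)) := by
    intro i j h
    rw [Finset.disjoint_left]
    intro e h1 h2
    rw [Finset.mem_sdiff] at h1 h2
    exact h2.2 (boxE_mono (Nj_mono (by omega)) h1.1)
  rcases Nat.lt_or_gt_of_ne hij with h | h
  · exact key i j h
  · exact (key j i h).symm

theorem sqrt_not_sum : ¬ Summable (fun j : ℕ => ((j:ℝ) + 2) ^ (-(1/2) : ℝ)) := by
  intro h2
  have h3 : Summable (fun j : ℕ => (j:ℝ) ^ (-(1/2) : ℝ)) := by
    rw [← summable_nat_add_iff 2]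
    refine h2.congr fun j => ?_
    push_cast
    rfl
  rw [Real.summable_nat_rpow] at h3
  norm_num at h3

/-- the lower bound for the probabilities -/
theorem exp_ge {j : ℕ} (h : 1 ≤ Real.log (Nj (j + 1) : ℝ)) :
    ((j:ℝ) + 2) ^ (-(1/2) : ℝ) ≤ Real.exp (-(LL (Nj (j + 1)) / 4)) := by
  rw [Real.rpow_def_of_pos (by positivity)]
  refine Real.exp_le_exp.2 ?_
  have := LL_Nj h
  linarith

theorem cut_ng {j : ℕ} {N : ℝ} {F : Finset Edg} (h : ¬ Ng j F)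
    (hN : (2:ℝ) ^ j * (Rj j : ℝ) ^ (91/48 : ℝ) ≤ N) (hb : Big N (Nj (j + 1)) F) :
    Big N (Nj (j + 1)) (F \ boxE (Nj j)) := by
  unfold Ng at h
  rw [not_or] at h
  exact big_cut (Nj_le_Rj j) h.1 (fun h2 => h.2 (big_le hN h2)) hb

/-- the largest cluster exceeds the upper rate infinitely often -/
theorem low_sup {C1 : ℝ} (hC1 : 0 < C1)
    (hL : ∀ n : ℕ, 1 ≤ n → ∀ x : ℝ, 1 ≤ x → x * (n : ℝ) ^ (91 / 48 : ℝ) ≤ (2 * (n : ℝ) + 1) ^ 2 →
      Real.exp (-(C1 * x ^ (96 / 5 : ℝ))) ≤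
        Pr P (boxE n) (Big (x * (n : ℝ) ^ (91 / 48 : ℝ)) n))
    (hng : Summable fun j : ℕ => Pr P (boxE (Nj (j + 1))) (Ng j)) :
    ∃ c : ℝ, 0 < c ∧ ∀ᵐ ω ∂crit, ∃ᶠ n : ℕ in atTop, Big (c * rU n) n (op (boxE n) ω) := by
  obtain ⟨b, hb, hbe⟩ := lvl2 (s := 5/96) (r := 96/5) hC1 (by norm_num)
  refine ⟨b, hb, ?_⟩
  have hx : Tendsto (fun n : ℕ => b * (LL n) ^ (5/96 : ℝ)) atTop atTop :=
    ((tendsto_rpow_atTop (by norm_num)).comp tend_LL).const_mul_atTop hb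
  have hev : ∀ᶠ j : ℕ in atTop, ((j:ℝ) + 2) ^ (-(1/2) : ℝ) ≤
      Pr P (boxE (Nj (j + 1))) (Big (b * rU (Nj (j + 1))) (Nj (j + 1))) := by
    filter_upwards [(hx.comp tend_Nj).eventually_ge_atTop 1,
      (tend_LL.comp tend_Nj).eventually_ge_atTop 1,
      (tend_log.comp tend_Nj).eventually_ge_atTop 1,
      tend_Nj.eventually (rU_le hb)] with j h1 h2 h3 h4
    simp only [Function.comp_apply] at h1 h2 h3
    have e : b * rU (Nj (j + 1)) = b * (LL (Nj (j + 1))) ^ (5/96 : ℝ) *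
        ((Nj (j + 1) : ℕ) : ℝ) ^ (91/48 : ℝ) := by
      unfold rU
      ring
    rw [e] at h4 ⊢
    refine le_trans ?_ (hL (Nj (j + 1)) (Nj_pos _) _ h1 h4)
    rw [hbe _ (by linarith)]
    exact exp_ge h3
  have hns : ¬ Summable (fun j : ℕ => Pr (fun _ => (1/2:ℝ)) (boxE (Nj (j + 1)) \ boxE (Nj j))
      (Big (b * rU (Nj (j + 1))) (Nj (j + 1)))) := by
    intro hs
    apply sqrt_not_sum
    refine Summable.of_norm_bounded_eventually_nat (hs.add hng) ?_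
    filter_upwards [hev, mid_small hb, tend_Nj.eventually rL_le_rU] with j hj hm hr
    rw [Real.norm_of_nonneg (by positivity)]
    refine hj.trans ?_
    have e : Pr (fun _ => (1/2:ℝ)) (boxE (Nj (j + 1)) \ boxE (Nj j))
        (Big (b * rU (Nj (j + 1))) (Nj (j + 1))) =
        Pr P (boxE (Nj (j + 1))) (fun F => Big (b * rU (Nj (j + 1))) (Nj (j + 1))
          (F \ boxE (Nj j))) := pr_between _
    rw [e]
    refine (Pr_mono w_ok (B := fun F => Big (b * rU (Nj (j + 1))) (Nj (j + 1))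
      (F \ boxE (Nj j)) ∨ Ng j F) ?_).trans (Pr_or_le w_ok _ _ _)
    intro F _ hF
    by_cases hg : Ng j F
    · exact Or.inr hg
    · exact Or.inl (cut_ng hg (hm.trans (mul_le_mul_of_nonneg_left hr hb.le)) hF)
  filter_upwards [bc2 _ T_disj _ hns] with ω hω
  refine tend_Nj.frequently (hω.mono fun j hj => ?_)
  rw [op_between] at hj
  exact Big_mono Finset.sdiff_subset hj

/-- the largest cluster is below the lower rate infinitely often -/
theorem up_inf {C1 : ℝ} (hC1 : 0 < C1)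
    (hL : ∀ n : ℕ, 1 ≤ n → ∀ x : ℝ, 1 ≤ x → x ≤ (n : ℝ) ^ (91 / 48 : ℝ) →
      Real.exp (-(C1 * x ^ (96 / 91 : ℝ))) ≤
        Pr P (boxE n) (fun F => ¬ Big ((⌊(n : ℝ) ^ (91 / 48 : ℝ) / x⌋₊ : ℝ) + 1) n F))
    (hng : Summable fun j : ℕ => Pr P (boxE (Nj (j + 1))) (Ng j)) :
    ∃ C : ℝ, 0 < C ∧ ∀ᵐ ω ∂crit, ∃ᶠ n : ℕ in atTop, ¬ Big (C * rL n) n (op (boxE n) ω) := by
  obtain ⟨b, hb, hbe⟩ := lvl2 (s := 91/96) (r := 96/91) hC1 (by norm_num)
  have hC : 0 < 2 / b := by positivity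
  refine ⟨2 / b, hC, ?_⟩
  have hx : Tendsto (fun n : ℕ => b * (LL n) ^ (91/96 : ℝ)) atTop atTop :=
    ((tendsto_rpow_atTop (by norm_num)).comp tend_LL).const_mul_atTop hb
  have hev : ∀ᶠ j : ℕ in atTop, ((j:ℝ) + 2) ^ (-(1/2) : ℝ) ≤
      Pr (fun _ => (1/2:ℝ)) (boxE (Nj (j + 1)) \ boxE (Nj j))
        (fun F => ¬ Big (2 / b * rL (Nj (j + 1))) (Nj (j + 1)) F) := by
    filter_upwards [(hx.comp tend_Nj).eventually_ge_atTop 1,
      (tend_LL.comp tend_Nj).eventually_ge_atTop 1,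
      (tend_log.comp tend_Nj).eventually_ge_atTop 1,
      tend_Nj.eventually (ten_le (show 0 < 1 / b by positivity))] with j h1 h2 h3 h4
    simp only [Function.comp_apply] at h1 h2 h3
    obtain ⟨n, hn⟩ : ∃ n, n = Nj (j + 1) := ⟨_, rfl⟩
    have hn1 : 1 ≤ n := by rw [hn]; exact Nj_pos _
    have hn1' : (1:ℝ) ≤ n := by exact_mod_cast hn1
    have hLL0 : 0 < (LL n) ^ (91/96 : ℝ) := Real.rpow_pos_of_pos (by rw [hn]; linarith) _
    have e1 : (n:ℝ) ^ (91/48 : ℝ) / (b * (LL n) ^ (91/96 : ℝ)) = 1 / b * rL n := by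
      rw [rL_eq (by rw [hn]; exact h2)]
      field_simp
    rw [← hn] at h1 h2 h3 h4
    have h5 : 1 ≤ 1 / b * rL n := by linarith
    have h6 : b * (LL n) ^ (91/96 : ℝ) ≤ (n:ℝ) ^ (91/48 : ℝ) := by
      rw [← e1, le_div_iff₀ (by positivity), one_mul] at h5
      exact h5
    have h7 := hL n hn1 _ h1 h6
    rw [hbe _ (by linarith), e1] at h7
    have e : Pr (fun _ => (1/2:ℝ)) (boxE (Nj (j + 1)) \ boxE (Nj j))
        (fun F => ¬ Big (2 / b * rL (Nj (j + 1))) (Nj (j + 1)) F) =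
        Pr P (boxE (Nj (j + 1))) (fun F => ¬ Big (2 / b * rL (Nj (j + 1))) (Nj (j + 1))
          (F \ boxE (Nj j))) := pr_between _
    rw [e]
    have h8 := exp_ge (j := j) (by rw [← hn]; exact h3)
    rw [← hn] at h8 ⊢
    refine h8.trans (h7.trans (Pr_mono w_ok ?_))
    intro F _ hF hcon
    apply hF
    refine big_le ?_ (Big_mono Finset.sdiff_subset hcon)
    have h9 := Nat.floor_le (show 0 ≤ 1 / b * rL n by linarith)
    have e3 : 2 / b * rL n = 1 / b * rL n + 1 / b * rL n := by ring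
    rw [e3]
    linarith
  have hns : ¬ Summable (fun j : ℕ => Pr (fun _ => (1/2:ℝ)) (boxE (Nj (j + 1)) \ boxE (Nj j))
      (fun F => ¬ Big (2 / b * rL (Nj (j + 1))) (Nj (j + 1)) F)) := by
    intro hs
    apply sqrt_not_sum
    refine Summable.of_norm_bounded_eventually_nat hs ?_
    filter_upwards [hev] with j hj
    rw [Real.norm_of_nonneg (by positivity)]
    exact hj
  filter_upwards [bc2 _ T_disj _ hns, bc1 _ _ hng] with ω hω hω2
  refine tend_Nj.frequently (((hω.and_eventually hω2).and_eventually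
    (mid_small hC)).mono ?_)
  rintro j ⟨⟨h1, h2⟩, h3⟩ hcon
  apply h1
  rw [op_between]
  exact cut_ng h2 h3 hcon

end Pool.Agent.U154.LIL
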