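import Pool.Agent.N956.PL.Inf
import Mathlib.Probability.Independence.ZeroOne

/-!
The zero-one law of Kolmogorov for events which do not depend on the edges near the origin, for an
increasing family of finite sets of edges.
-/

set_option autoImplicit false

namespace Pool.Agent.U154.LIL

open MeasureTheory ProbabilityTheory H974 Filter Topology Pool.Agent.N956.PL
open scoped ENNReal

/-- the edges between two successive boxes -/
noncomputable def Rb (B : ℕ → Finset Edg) (k : ℕ) : Finset Edg := B (k + 1) \ B k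

theorem Rb_disj {B : ℕ → Finset Edg} (hB : Monotone B) (i j : ℕ) (hij : i ≠ j) :
    Disjoint (Rb B i) (Rb B j) := by
  have key : ∀ i j : ℕ, i < j → Disjoint (Rb B i) (Rb B j) := by
    intro i j h
    rw [Finset.disjoint_left]
    intro e h1 h2
    unfold Rb at h1 h2
    rw [Finset.mem_sdiff] at h1 h2
    exact h2.2 (hB (show i + 1 ≤ j by omega) h1.1)
  rcases Nat.lt_or_gt_of_ne hij with h | h
  · exact key i j h
  · exact (key j i h).symm

/-- the sigma-algebra of the edges between two successive boxes -/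
noncomputable abbrev sb (B : ℕ → Finset Edg) (k : ℕ) : MeasurableSpace (Edg → Bool) :=
  MeasurableSpace.comap (fun ω => op (Rb B k) ω) ⊤

theorem sb_le (B : ℕ → Finset Edg) (k : ℕ) :
    sb B k ≤ (MeasurableSpace.pi : MeasurableSpace (Edg → Bool)) := by
  rintro s ⟨A, -, rfl⟩
  exact meas_op (Rb B k) (fun F => F ∈ A)

theorem sb_indep {B : ℕ → Finset Edg} (hB : Monotone B) : iIndep (sb B) crit := by
  rw [iIndep_iff]
  intro s f hf
  choose! A hA using hf
  have e : ∀ i ∈ s, f i = {ω : Edg → Bool | op (Rb B i) ω ∈ A i} := fun i hi => (hA i hi).2.symm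
  have e1 : (⋂ i ∈ s, f i) = ⋂ i ∈ s, {ω : Edg → Bool | op (Rb B i) ω ∈ A i} :=
    Set.iInter₂_congr e
  rw [e1, ind_prod (Rb B) (Rb_disj hB) s (fun i F => F ∈ A i)]
  exact Finset.prod_congr rfl fun i hi => by rw [e i hi]

/-- the state of an edge between two successive boxes -/
theorem meas_edge' {B : ℕ → Finset Edg} {k : ℕ} {e : Edg} (he : e ∈ Rb B k) :
    MeasurableSet[sb B k] {ω : Edg → Bool | ω e = true} := by
  refine ⟨{F | e ∈ F}, trivial, ?_⟩
  ext ω
  simp only [Set.mem_preimage, Set.mem_ofPred_eq, op, Finset.mem_filter, he, true_and]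

/-- events of finitely many edges outside the box of size `k` -/
theorem meas_out' {B : ℕ → Finset Edg} {k : ℕ} {S : Finset Edg}
    (hS : ∀ e ∈ S, ∃ j, k ≤ j ∧ e ∈ Rb B j) (A : Finset Edg → Prop) :
    MeasurableSet[⨆ j, ⨆ _ : k ≤ j, sb B j] {ω : Edg → Bool | A (op S ω)} := by
  classical
  have h1 : ∀ e ∈ S, MeasurableSet[⨆ j, ⨆ _ : k ≤ j, sb B j] {ω : Edg → Bool | ω e = true} := by
    intro e he
    obtain ⟨j, hj, hej⟩ := hS e he
    exact (le_iSup₂_of_le j hj le_rfl : sb B j ≤ ⨆ j, ⨆ _ : k ≤ j, sb B j) _ (meas_edge' hej)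
  rw [op_union]
  refine @Finset.measurableSet_biUnion _ _ (⨆ j, ⨆ _ : k ≤ j, sb B j) _ _ fun F hF => ?_
  have hFS : F ⊆ S := Finset.mem_powerset.1 (Finset.mem_filter.1 hF).1
  have e1 : {ω : Edg → Bool | op S ω = F} = ⋂ e ∈ S, (if e ∈ F then {ω : Edg → Bool | ω e = true}
      else {ω : Edg → Bool | ω e = true}ᶜ) := by
    ext ω
    rw [cyl_set hFS]
    simp only [Set.mem_pi, Finset.mem_coe, Set.mem_singleton_iff, Set.mem_iInter]
    refine forall_congr' fun e => forall_congr' fun he => ?_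
    by_cases h : e ∈ F
    · simp [h]
    · simp [h]
  rw [e1]
  refine @Finset.measurableSet_biInter _ _ (⨆ j, ⨆ _ : k ≤ j, sb B j) _ _ fun e he => ?_
  split_ifs
  · exact h1 e he
  · exact (h1 e he).compl

/-- Zero-one law: `D n` is an event of the edges of the box of size `n`, and almost surely the value
of `D n` does not change for large `n`, if the edges of the box of size `k` are closed. -/
theorem zero_one' {B : ℕ → Finset Edg} (hB : Monotone B) (D : ℕ → Finset Edg → Prop)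
    (h : ∀ k : ℕ, ∀ᵐ ω ∂crit, ∀ᶠ n : ℕ in atTop, (D n (op (B n) ω) ↔
      D n (op (B n \ B k) ω))) :
    (∀ᵐ ω ∂crit, ∃ᶠ n : ℕ in atTop, D n (op (B n) ω)) ∨
      ∀ᵐ ω ∂crit, ∀ᶠ n : ℕ in atTop, ¬ D n (op (B n) ω) := by
  obtain ⟨A, hA⟩ : ∃ A : ℕ → Set (Edg → Bool), A = fun (k : ℕ) => {ω | ∃ᶠ n : ℕ in atTop,
    D n (op (B n \ B k) ω)} := ⟨_, rfl⟩
  have hAm : ∀ m k : ℕ, m ≤ k → MeasurableSet[⨆ j, ⨆ _ : m ≤ j, sb B j] (A k) := by
    intro m k hmk
    have e : A k = ⋂ N : ℕ, ⋃ n : ℕ, ⋃ _ : N ≤ n, {ω : Edg → Bool |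
        D n (op (B n \ B k) ω)} := by
      ext ω
      rw [hA]
      simp only [Set.mem_ofPred_eq, frequently_atTop, Set.mem_iInter, Set.mem_iUnion, exists_prop]
    rw [e]
    refine @MeasurableSet.iInter _ _ (⨆ j, ⨆ _ : m ≤ j, sb B j) _ _ fun N => ?_
    refine @MeasurableSet.iUnion _ _ (⨆ j, ⨆ _ : m ≤ j, sb B j) _ _ fun n => ?_
    refine @MeasurableSet.iUnion _ _ (⨆ j, ⨆ _ : m ≤ j, sb B j) _ _ fun _ => ?_
    refine meas_out' ?_ _
    intro e he
    rw [Finset.mem_sdiff] at he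
    have hex : ∃ j : ℕ, e ∈ B j := ⟨n, he.1⟩
    classical
    obtain ⟨j, hj⟩ : ∃ j, j = Nat.find hex := ⟨_, rfl⟩
    have h1 : e ∈ B j := by rw [hj]; exact Nat.find_spec hex
    have h2 : k < j := by
      by_contra hcon
      exact he.2 (hB (not_lt.1 hcon) h1)
    have h3 : e ∉ B (j - 1) := by
      have := Nat.find_min hex (m := j - 1) (by omega)
      exact this
    refine ⟨j - 1, by omega, ?_⟩
    unfold Rb
    rw [Finset.mem_sdiff, show j - 1 + 1 = j by omega]
    exact ⟨h1, h3⟩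
  obtain ⟨G, hG⟩ : ∃ G : Set (Edg → Bool), G = {ω | ∃ᶠ k : ℕ in atTop, ω ∈ A k} := ⟨_, rfl⟩
  have hGm : MeasurableSet[limsup (sb B) atTop] G := by
    have e0 : limsup (sb B) atTop = ⨅ m : ℕ, ⨆ j, ⨆ _ : m ≤ j, sb B j :=
      limsup_eq_iInf_iSup_of_nat
    rw [e0, MeasurableSpace.measurableSet_iInf]
    intro m
    have e : G = ⋂ K : ℕ, ⋃ k : ℕ, ⋃ _ : max K m ≤ k, A k := by
      ext ω
      rw [hG]
      simp only [Set.mem_ofPred_eq, frequently_atTop, Set.mem_iInter, Set.mem_iUnion, exists_prop]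
      constructor
      · intro h K
        obtain ⟨k, hk, hk2⟩ := h (max K m)
        exact ⟨k, hk, hk2⟩
      · intro h K
        obtain ⟨k, hk, hk2⟩ := h K
        exact ⟨k, (le_max_left _ _).trans hk, hk2⟩
    rw [e]
    refine @MeasurableSet.iInter _ _ (⨆ j, ⨆ _ : m ≤ j, sb B j) _ _ fun K => ?_
    refine @MeasurableSet.iUnion _ _ (⨆ j, ⨆ _ : m ≤ j, sb B j) _ _ fun k => ?_
    refine @MeasurableSet.iUnion _ _ (⨆ j, ⨆ _ : m ≤ j, sb B j) _ _ fun hk => ?_
    exact hAm m k ((le_max_right _ _).trans hk)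
  have hall : ∀ᵐ ω ∂crit, ∀ k, ((∃ᶠ n : ℕ in atTop, D n (op (B n) ω)) ↔ ω ∈ A k) := by
    rw [ae_all_iff]
    intro k
    filter_upwards [h k] with ω hω
    rw [hA]
    exact frequently_congr hω
  have hGiff : ∀ᵐ ω ∂crit, ((∃ᶠ n : ℕ in atTop, D n (op (B n) ω)) ↔ ω ∈ G) := by
    filter_upwards [hall] with ω hω
    rw [hG]
    simp only [Set.mem_ofPred_eq]
    constructor
    · intro h1
      exact Frequently.of_forall fun k => (hω k).1 h1
    · intro h1
      obtain ⟨k, hk⟩ := h1.exists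
      exact (hω k).2 hk
  rcases measure_zero_or_one_of_measurableSet_limsup_atTop (sb_le B) (sb_indep hB) hGm with h0 | h1
  · right
    have h2 : ∀ᵐ ω ∂crit, ω ∉ G := measure_eq_zero_iff_ae_notMem.1 h0
    filter_upwards [hGiff, h2] with ω hω hω2
    rw [← not_frequently]
    exact fun hcon => hω2 (hω.1 hcon)
  · left
    have hGm' : MeasurableSet G := by
      have h3 : limsup (sb B) atTop ≤ (MeasurableSpace.pi : MeasurableSpace (Edg → Bool)) :=
        limsup_le_iSup.trans (iSup_le (sb_le B))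
      exact h3 _ hGm
    have h2 : ∀ᵐ ω ∂crit, ω ∈ G := (prob_compl_eq_zero_iff hGm').2 h1
    filter_upwards [hGiff, h2] with ω hω hω2
    exact hω.2 hω2

end Pool.Agent.U154.LIL
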