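import Pool.Agent.U154.LIL.Halves
import Pool.Agent.U154.LIL.ZO
import Pool.Agent.U154.LIL.Cst

/-!
The laws of the iterated logarithm for the largest cluster.
-/

set_option autoImplicit false

namespace Pool.Agent.U154.LIL

open MeasureTheory Filter Topology
open H974 Pool.Agent.H160R2.CV Pool.Agent.Y244.PC Pool.Agent.N956.PL

theorem boxE_zero : boxE 0 = ∅ := by
  ext e
  rw [InfMax.mem_boxE]
  simp only [Finset.notMem_empty, iff_false]
  rintro ⟨h1, h2⟩
  rw [w_mem_bx] at h1 h2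
  obtain ⟨x, y, _ | _⟩ := e
  · rw [tgt_false] at h2
    simp only [src_mk] at h1
    simp only at h2
    omega
  · rw [tgt_true] at h2
    simp only [src_mk] at h1
    simp only at h2
    omega

theorem crs_mono {k R : ℕ} {F G : Set Edg} (h : F ⊆ G) (hc : Crx k R F) :
    Crx k R G := by
  obtain ⟨x, y, hx, hy, hr⟩ := hc
  exact ⟨x, y, hx, hy, hr.mono h⟩

/-- closing finitely many edges does not change the events for large `n` -/
theorem agree (hAr : ArSharp) {ℓ : ℕ → ℝ} (hℓ : ∀ᶠ n : ℕ in atTop, 10 * (n:ℝ) ≤ ℓ n) (k : ℕ) :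
    ∀ᵐ ω ∂crit, ∀ᶠ n : ℕ in atTop, (Big (ℓ n) n (op (boxE n) ω) ↔
      Big (ℓ n) n (op (boxE n \ boxE k) ω)) := by
  rcases Nat.eq_zero_or_pos k with hk | hk
  · filter_upwards with ω
    filter_upwards with n
    rw [hk, boxE_zero, Finset.sdiff_empty]
  obtain ⟨C, c, hC, hc, hcr⟩ := crs_prob hAr
  have hk0 : (0:ℝ) < k := by exact_mod_cast hk
  have hs0 : Summable (fun q : ℕ => C * (k:ℝ) ^ c * ((1/2 : ℝ) ^ c) ^ (q + 2)) := by
    refine Summable.mul_left _ ?_
    exact (summable_nat_add_iff 2).2 (summable_geometric_of_lt_one (by positivity)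
      (Real.rpow_lt_one (by norm_num) (by norm_num) hc))
  have hs : Summable (fun q : ℕ => Pr (fun _ => (1/2:ℝ)) (boxE (4 ^ (q + 3)))
      (fun F => Crx k (2 ^ (q + 2)) (↑F))) := by
    refine Summable.of_norm_bounded_eventually_nat hs0 ?_
    filter_upwards [eventually_ge_atTop (3 * k)] with q hq
    rw [Real.norm_of_nonneg (Pr_nonneg ok2 _ _)]
    have hkR : 3 * k ≤ 2 ^ (q + 2) := by
      have h1 : q + 2 < 2 ^ (q + 2) := Nat.lt_two_pow_self
      omega
    have h1 := hcr k (2 ^ (q + 2)) hk hkR (boxE (4 ^ (q + 3)))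
    have e1 : ((k : ℝ) / ((2 ^ (q + 2) : ℕ) : ℝ)) ^ c = (k:ℝ) ^ c * ((1/2 : ℝ) ^ c) ^ (q + 2) := by
      have e2 : (k : ℝ) / ((2 ^ (q + 2) : ℕ) : ℝ) = k * (1/2) ^ (q + 2) := by
        push_cast
        rw [one_div, inv_pow]
        rfl
      rw [e2, Real.mul_rpow hk0.le (by positivity)]
      congr 1
      rw [← Real.rpow_natCast, ← Real.rpow_natCast, ← Real.rpow_mul (by norm_num),
        ← Real.rpow_mul (by norm_num), mul_comm]
    rw [e1, ← mul_assoc] at h1
    exact h1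
  filter_upwards [bc1 _ _ hs] with ω hω
  have hlog4 : Tendsto (fun n : ℕ => Nat.log 4 n - 2) atTop atTop :=
    tendsto_atTop.2 fun b => eventually_atTop.2 ⟨4 ^ (b + 2), fun n hn => by
      have := Nat.le_log_of_pow_le (by norm_num) hn
      omega⟩
  filter_upwards [hlog4.eventually hω, hℓ, eventually_ge_atTop 16,
    hlog4.eventually_ge_atTop k] with n h1 h2 hn hkn
  obtain ⟨q, hq⟩ : ∃ q, q = Nat.log 4 n - 2 := ⟨_, rfl⟩
  have hl2 : 2 ≤ Nat.log 4 n := Nat.le_log_of_pow_le (by norm_num) (by norm_num; exact hn)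
  have e : Nat.log 4 n = q + 2 := by omega
  rw [← hq] at h1 hkn
  have hkR : k ≤ 2 ^ (q + 2) := by
    have : q + 2 < 2 ^ (q + 2) := Nat.lt_two_pow_self
    omega
  have hqn : 4 ^ (q + 2) ≤ n := by rw [← e]; exact Nat.pow_log_le_self 4 (by omega)
  have hqn2 : n ≤ 4 ^ (q + 3) := by
    have := Nat.lt_pow_succ_log_self (b := 4) (by norm_num) n
    rw [e] at this
    exact this.le
  rw [op_between]
  constructor
  · intro hb
    refine big_cut hkR (fun hcr => h1 (crs_mono ?_ hcr)) (fun hb2 => ?_) hb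
    · exact_mod_cast op_mono hqn2 ω
    · have h3 := h2.trans (big_card hb2)
      have h4 : (1:ℝ) ≤ ((2 ^ (q + 2) : ℕ) : ℝ) := by exact_mod_cast Nat.one_le_two_pow
      have h5 : ((2 ^ (q + 2) : ℕ) : ℝ) * ((2 ^ (q + 2) : ℕ) : ℝ) ≤ n := by
        have : 2 ^ (q + 2) * 2 ^ (q + 2) ≤ n := by
          rw [← mul_pow]
          exact hqn
        exact_mod_cast this
      nlinarith
  · exact Big_mono Finset.sdiff_subset

/-- the zero-one law for large clusters -/
theorem zo (hAr : ArSharp) {ℓ : ℕ → ℝ} (hℓ : ∀ᶠ n : ℕ in atTop, 10 * (n:ℝ) ≤ ℓ n) :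
    (∀ᵐ ω ∂crit, ∃ᶠ n : ℕ in atTop, Big (ℓ n) n (op (boxE n) ω)) ∨
      ∀ᵐ ω ∂crit, ∀ᶠ n : ℕ in atTop, ¬ Big (ℓ n) n (op (boxE n) ω) :=
  zero_one' (B := boxE) (fun _ _ h => boxE_mono h) (fun n F => Big (ℓ n) n F) (agree hAr hℓ)

/-- the zero-one law for small clusters -/
theorem zo' (hAr : ArSharp) {ℓ : ℕ → ℝ} (hℓ : ∀ᶠ n : ℕ in atTop, 10 * (n:ℝ) ≤ ℓ n) :
    (∀ᵐ ω ∂crit, ∃ᶠ n : ℕ in atTop, ¬ Big (ℓ n) n (op (boxE n) ω)) ∨
      ∀ᵐ ω ∂crit, ∀ᶠ n : ℕ in atTop, Big (ℓ n) n (op (boxE n) ω) := by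
  have h := zero_one' (B := boxE) (fun _ _ h => boxE_mono h) (fun n F => ¬ Big (ℓ n) n F)
    (fun k => by
      filter_upwards [agree hAr hℓ k] with ω hω
      filter_upwards [hω] with n hn
      exact not_congr hn)
  simpa only [not_not] using h

/-- The laws of the iterated logarithm: `M n ω` is the size of the largest cluster. -/
theorem lil (hAr : ArSharp) (M : ℕ → (Edg → Bool) → ℕ)
    (hM : ∀ (n : ℕ) (y : ℝ) (ω : Edg → Bool), y ≤ (M n ω : ℝ) ↔ Big y n (op (boxE n) ω)) :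
    ∃ A a : ℝ, 0 < A ∧ 0 < a ∧ ∀ᵐ ω ∂crit,
      limsup (fun n : ℕ => (M n ω : ℝ) / rU n) atTop = A ∧
      liminf (fun n : ℕ => (M n ω : ℝ) / rL n) atTop = a := by
  obtain ⟨c0, C0, hc0, hC0, hUU⟩ := upper_tail_upper hAr
  obtain ⟨C1, hC1, hUL⟩ := upper_tail_lower hAr
  obtain ⟨c2, C2, hc2, hC2, hLU⟩ := lower_tail_upper hAr
  obtain ⟨C3, hC3, hLL⟩ := lower_tail_lower hAr
  have hng := ng_sum hAr hc0 hUU
  obtain ⟨B1, hB1, g1⟩ := up_sup hc0 hUU
  obtain ⟨b1, hb1, g2⟩ := low_sup hC1 hUL hng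
  obtain ⟨b2, hb2, g3⟩ := low_inf hc2 hLU
  obtain ⟨B2, hB2, g4⟩ := up_inf hC3 hLL hng
  have hU : ∀ (t : ℝ) (ω : Edg → Bool), ∀ᶠ n : ℕ in atTop,
      (t ≤ (M n ω : ℝ) / rU n ↔ Big (t * rU n) n (op (boxE n) ω)) := by
    intro t ω
    filter_upwards [rU_pos] with n hn
    rw [le_div_iff₀ hn, hM]
  have hL : ∀ (t : ℝ) (ω : Edg → Bool), ∀ᶠ n : ℕ in atTop,
      (t ≤ (M n ω : ℝ) / rL n ↔ Big (t * rL n) n (op (boxE n) ω)) := by
    intro t ω
    filter_upwards [rL_pos] with n hn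
    rw [le_div_iff₀ hn, hM]
  obtain ⟨A, hA1, -, hA⟩ := limsup_const (μ := crit) (fun n ω => (M n ω : ℝ) / rU n) (C := B1) hb1
    (fun ω => by
      filter_upwards [rU_pos] with n hn
      positivity)
    (fun t ht => by
      have h10 : ∀ᶠ n : ℕ in atTop, 10 * (n:ℝ) ≤ t * rU n := by
        filter_upwards [ten_le ht, rL_le_rU] with n h1 h2
        exact h1.trans (mul_le_mul_of_nonneg_left h2 ht.le)
      rcases zo hAr h10 with h | h
      · left
        filter_upwards [h] with ω hω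
        exact (hω.and_eventually (hU t ω)).mono fun n hn => hn.2.2 hn.1
      · right
        filter_upwards [h] with ω hω
        filter_upwards [hω, hU t ω] with n h1 h2
        exact not_le.1 fun h3 => h1 (h2.1 h3))
    (by
      filter_upwards [g2] with ω hω
      exact (hω.and_eventually (hU b1 ω)).mono fun n hn => hn.2.2 hn.1)
    (by
      filter_upwards [g1] with ω hω
      filter_upwards [hω, hU B1 ω] with n h1 h2
      exact (not_le.1 fun h3 => h1 (h2.1 h3)).le)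
  obtain ⟨a, ha1, -, ha⟩ := liminf_const (μ := crit) (fun n ω => (M n ω : ℝ) / rL n) (C := B2) hb2
    (fun t ht => by
      rcases zo' hAr (ten_le ht) with h | h
      · right
        filter_upwards [h] with ω hω
        exact (hω.and_eventually (hL t ω)).mono fun n hn =>
          not_le.1 fun h3 => hn.1 (hn.2.1 h3)
      · left
        filter_upwards [h] with ω hω
        filter_upwards [hω, hL t ω] with n h1 h2
        exact h2.2 h1)
    (by
      filter_upwards [g3] with ω hω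
      filter_upwards [hω, hL b2 ω] with n h1 h2
      exact h2.2 h1)
    (by
      filter_upwards [g4] with ω hω
      exact (hω.and_eventually (hL B2 ω)).mono fun n hn =>
        (not_le.1 fun h3 => hn.1 (hn.2.1 h3)).le)
  refine ⟨A, a, hb1.trans_le hA1, hb2.trans_le ha1, ?_⟩
  filter_upwards [hA, ha] with ω h1 h2
  exact ⟨h1, h2⟩

end Pool.Agent.U154.LIL
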