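import Pool.Agent.U154.LIL.Top
import Pool.Agent.Y244.PC.Law

/-!
The laws of the iterated logarithm for the configurations on the edge set of the square lattice.
-/

set_option autoImplicit false

namespace Pool.Agent.U154.LIL

open MeasureTheory Filter Topology
open H974 Pool.Agent.H160R2.CV Pool.Agent.Y244.PC Pool.Agent.N956.PL

theorem meas_phi : Measurable (fun (ω : sqLattice.edgeSet → Bool) (e : Edg) => ω (toE e)) :=
  measurable_pi_lambda _ fun e => measurable_pi_apply (toE e)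

theorem map_crit : (bondLaw hlf).map
    (fun (ω : sqLattice.edgeSet → Bool) (e : Edg) => ω (toE e)) = crit := by
  classical
  unfold crit
  refine Measure.eq_infinitePi _ fun s t ht => ?_
  rw [Measure.map_apply meas_phi (MeasurableSet.pi s.countable_toSet fun i _ => ht i)]
  obtain ⟨t', ht'⟩ : ∃ t' : sqLattice.edgeSet → Set Bool, ∀ e, t' (toE e) = t e := by
    refine ⟨fun g => if h : ∃ e, toE e = g then t h.choose else Set.univ, fun e => ?_⟩
    have h : ∃ e', toE e' = toE e := ⟨e, rfl⟩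
    show (if h : ∃ e', toE e' = toE e then t h.choose else Set.univ) = t e
    rw [dif_pos h]
    congr 1
    exact toE_inj h.choose_spec
  have e1 : (fun (ω : sqLattice.edgeSet → Bool) (e : Edg) => ω (toE e)) ⁻¹' (Set.pi (↑s) t) =
      Set.pi (↑(s.image toE)) t' := by
    ext ω
    simp only [Set.mem_preimage, Set.mem_pi, Finset.mem_coe, Finset.mem_image,
      forall_exists_index, and_imp, forall_apply_eq_imp_iff₂, ht']
  rw [e1]
  unfold bondLaw
  rw [Measure.infinitePi_pi _ (fun _ _ => MeasurableSet.of_discrete),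
    Finset.prod_image toE_inj.injOn]
  refine Finset.prod_congr rfl fun e _ => ?_
  rw [ht']
  rfl

/-- the size of the largest cluster -/
noncomputable def Mx (n : ℕ) (F : Finset Edg) : ℕ := sSup {m : ℕ | Big m n F}

theorem le_Mx (n : ℕ) (y : ℝ) (F : Finset Edg) : y ≤ (Mx n F : ℝ) ↔ Big y n F := by
  have hbd : BddAbove {m : ℕ | Big m n F} := by
    refine ⟨(2 * n + 1) ^ 2, fun m hm => ?_⟩
    have := big_card (show Big (m:ℝ) n F from hm)
    exact_mod_cast this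
  have hne : {m : ℕ | Big m n F}.Nonempty := by
    refine ⟨0, (0, 0), ?_, ∅, ?_, ?_⟩
    · rw [w_mem_bx]
      simp
    · simp
    · simp
  constructor
  · intro h
    have h1 : Big (Mx n F : ℝ) n F := Nat.sSup_mem hne hbd
    exact big_le h h1
  · rintro ⟨v, hv, T, hT, hr⟩
    have h1 : T.card ∈ {m : ℕ | Big m n F} := ⟨v, hv, T, le_rfl, hr⟩
    exact hT.trans (by exact_mod_cast le_csSup hbd h1)

theorem maxCl_eq (n : ℕ) (ω : sqLattice.edgeSet → Bool) : maxCl n ω = Mx n (FF (boxE n) ω) := by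
  refine eq_of_forall_le_iff fun m => ?_
  rw [InfMax.le_maxCl_iff, ← le_Mx]
  exact Nat.cast_le

theorem lil' (hAr : ArSharp) : ∃ A a : ℝ, 0 < A ∧ 0 < a ∧ ∀ᵐ ω ∂(bondLaw hlf),
      limsup (fun n : ℕ => (maxCl n ω : ℝ) / rU n) atTop = A ∧
      liminf (fun n : ℕ => (maxCl n ω : ℝ) / rL n) atTop = a := by
  obtain ⟨A, a, hA, ha, h⟩ := lil hAr (fun n ω => Mx n (op (boxE n) ω)) (fun n y ω => le_Mx n y _)
  refine ⟨A, a, hA, ha, ?_⟩
  rw [← map_crit] at h
  filter_upwards [ae_of_ae_map meas_phi.aemeasurable h] with ω hω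
  have e : ∀ n : ℕ, maxCl n ω = Mx n (op (boxE n) (fun e => ω (toE e))) := fun n => maxCl_eq n ω
  simp_rw [e]
  exact hω

/-- Both tails of the size of the largest cluster. -/
theorem tails (hAr : ArSharp) : ∃ c C : ℝ, 0 < c ∧ 0 < C ∧ ∀ n : ℕ, 1 ≤ n → ∀ x : ℝ, 1 ≤ x →
    (bondLaw hlf).real {ω | x * (n : ℝ) ^ (91 / 48 : ℝ) ≤ (maxCl n ω : ℝ)} ≤
      C * Real.exp (-(c * x ^ (96 / 5 : ℝ))) ∧
    (x * (n : ℝ) ^ (91 / 48 : ℝ) ≤ (2 * (n : ℝ) + 1) ^ 2 →
      Real.exp (-(C * x ^ (96 / 5 : ℝ))) ≤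
        (bondLaw hlf).real {ω | x * (n : ℝ) ^ (91 / 48 : ℝ) ≤ (maxCl n ω : ℝ)}) ∧
    (bondLaw hlf).real {ω | (maxCl n ω : ℝ) ≤ (n : ℝ) ^ (91 / 48 : ℝ) / x} ≤
      C * Real.exp (-(c * x ^ (96 / 91 : ℝ))) ∧
    (x ≤ (n : ℝ) ^ (91 / 48 : ℝ) → Real.exp (-(C * x ^ (96 / 91 : ℝ))) ≤
        (bondLaw hlf).real {ω | (maxCl n ω : ℝ) ≤ (n : ℝ) ^ (91 / 48 : ℝ) / x}) := by
  obtain ⟨c0, C0, hc0, hC0, hUU⟩ := upper_tail_upper hAr
  obtain ⟨C1, hC1, hUL⟩ := upper_tail_lower hAr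
  obtain ⟨c2, C2, hc2, hC2, hLU⟩ := lower_tail_upper hAr
  obtain ⟨C3, hC3, hLL⟩ := lower_tail_lower hAr
  obtain ⟨c, hc⟩ : ∃ c : ℝ, c = min c0 c2 := ⟨_, rfl⟩
  obtain ⟨C, hC⟩ : ∃ C : ℝ, C = max (max C0 C1) (max C2 C3) := ⟨_, rfl⟩
  have a0 : c ≤ c0 := hc.le.trans (min_le_left _ _)
  have a2 : c ≤ c2 := hc.le.trans (min_le_right _ _)
  have b0 : C0 ≤ C := ((le_max_left _ _).trans (le_max_left _ _)).trans hC.ge
  have b1 : C1 ≤ C := ((le_max_right _ _).trans (le_max_left _ _)).trans hC.ge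
  have b2 : C2 ≤ C := ((le_max_left _ _).trans (le_max_right _ _)).trans hC.ge
  have b3 : C3 ≤ C := ((le_max_right _ _).trans (le_max_right _ _)).trans hC.ge
  refine ⟨c, C, by rw [hc]; exact lt_min hc0 hc2, hC0.trans_le b0, fun n hn x hx => ?_⟩
  have hx0 : 0 < x := by linarith
  have p1 : 0 ≤ x ^ (96 / 5 : ℝ) := by positivity
  have p2 : 0 ≤ x ^ (96 / 91 : ℝ) := by positivity
  have hy : 0 ≤ (n : ℝ) ^ (91 / 48 : ℝ) / x := by positivity
  rw [maxCl_ge, maxCl_le n hy]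
  refine ⟨(hUU n hn x hx).trans ?_, fun h => le_trans ?_ (hUL n hn x hx h),
    (hLU n hn x hx).trans ?_, fun h => le_trans ?_ (hLL n hn x hx h)⟩
  · refine mul_le_mul b0 (Real.exp_le_exp.2 ?_) (Real.exp_pos _).le (hC0.le.trans b0)
    have := mul_le_mul_of_nonneg_right a0 p1
    linarith
  · refine Real.exp_le_exp.2 ?_
    have := mul_le_mul_of_nonneg_right b1 p1
    linarith
  · refine mul_le_mul b2 (Real.exp_le_exp.2 ?_) (Real.exp_pos _).le (hC0.le.trans b0)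
    have := mul_le_mul_of_nonneg_right a2 p2
    linarith
  · refine Real.exp_le_exp.2 ?_
    have := mul_le_mul_of_nonneg_right b3 p2
    linarith

end Pool.Agent.U154.LIL
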